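import Mathlib

set_option autoImplicit false

open MeasureTheory FourierTransform Set
open scoped ENNReal

namespace Pool.Agent.H10.TU

section Defs

variable {V : Type*} [NormedAddCommGroup V] [InnerProductSpace ℝ V] [FiniteDimensional ℝ V]
  [MeasurableSpace V] [BorelSpace V]

/-- The class `𝒜(K)`: continuous integrable functions `F ≥ 0` with `F 0 ≥ 1` whose Fourier transform
`F̂(ξ) = ∫ F(x) e^{-2π i ⟨x, ξ⟩} dx` is supported in `K`. -/
def Adm (K : Set V) : Set (V → ℝ) :=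
  {F | Continuous F ∧ Integrable F ∧ (∀ x, 0 ≤ F x) ∧ 1 ≤ F 0 ∧
    tsupport (𝓕 (fun x => (F x : ℂ))) ⊆ K}

/-- `I(K) = inf {∫ F : F ∈ 𝒜(K)}`. -/
noncomputable def turanI (K : Set V) : ℝ := sInf {t | ∃ F ∈ Adm K, t = ∫ x, F x}

/-- Symmetric convex bodies: compact, convex, `K = -K`, with nonempty interior. -/
def SymBody (K : Set V) : Prop :=
  IsCompact K ∧ Convex ℝ K ∧ (∀ x ∈ K, -x ∈ K) ∧ (interior K).Nonempty

/-- There is a symmetric convex body `K` and `F ∈ 𝒜(K)` with `|K| ∫ F ≤ c`. -/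
def Good (V : Type*) [NormedAddCommGroup V] [InnerProductSpace ℝ V] [FiniteDimensional ℝ V]
    [MeasurableSpace V] [BorelSpace V] (c : ℝ) : Prop :=
  ∃ K : Set V, SymBody K ∧ ∃ F ∈ Adm K, volume.real K * ∫ x, F x ≤ c

end Defs

lemma turanI_le {V : Type*} [NormedAddCommGroup V] [InnerProductSpace ℝ V] [FiniteDimensional ℝ V]
    [MeasurableSpace V] [BorelSpace V] {K : Set V} {F : V → ℝ} (hF : F ∈ Adm K) :
    turanI K ≤ ∫ x, F x := by
  apply csInf_le
  · refine ⟨0, ?_⟩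
    rintro t ⟨G, hG, rfl⟩
    exact integral_nonneg hG.2.2.1
  · exact ⟨F, hF, rfl⟩

section Transport

variable {V W : Type*} [NormedAddCommGroup V] [InnerProductSpace ℝ V] [FiniteDimensional ℝ V]
  [MeasurableSpace V] [BorelSpace V] [NormedAddCommGroup W] [InnerProductSpace ℝ W]
  [FiniteDimensional ℝ W] [MeasurableSpace W] [BorelSpace W]

lemma Good.transport {c : ℝ} (A : V ≃ₗᵢ[ℝ] W) (h : Good W c) : Good V c := by
  obtain ⟨K, ⟨hK1, hK2, hK3, hK4⟩, F, ⟨hF1, hF2, hF3, hF4, hF5⟩, hc⟩ := h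
  have mp : MeasurePreserving A := A.measurePreserving
  refine ⟨A ⁻¹' K, ⟨?_, ?_, ?_, ?_⟩, fun x => F (A x), ⟨?_, ?_, ?_, ?_, ?_⟩, ?_⟩
  · exact A.toHomeomorph.isCompact_preimage.2 hK1
  · exact hK2.linear_preimage A.toLinearEquiv.toLinearMap
  · intro x hx
    show A (-x) ∈ K
    rw [map_neg]; exact hK3 _ hx
  · have : interior (A ⁻¹' K) = A ⁻¹' (interior K) :=
      (A.toHomeomorph.preimage_interior K).symm
    rw [this]
    obtain ⟨y, hy⟩ := hK4
    exact ⟨A.symm y, by simpa using hy⟩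
  · exact hF1.comp A.continuous
  · exact (mp.integrable_comp_emb A.toHomeomorph.measurableEmbedding).2 hF2
  · intro x; exact hF3 _
  · show 1 ≤ F (A 0)
    rw [map_zero]; exact hF4
  · have e : 𝓕 (fun x => ((F (A x) : ℝ) : ℂ)) = (𝓕 (fun x => (F x : ℂ))) ∘ A := by
      funext w
      exact Real.fourier_comp_linearIsometry A (fun x => (F x : ℂ)) w
    rw [e]
    refine (closure_minimal (t := A ⁻¹' K) ?_ (hK1.isClosed.preimage A.continuous))
    intro x hx
    exact hF5 (subset_tsupport _ hx)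
  · have e1 : ∫ x, F (A x) = ∫ x, F x :=
      mp.integral_comp A.toHomeomorph.measurableEmbedding F
    have e2 : volume.real (A ⁻¹' K) = volume.real K := by
      rw [Measure.real, mp.measure_preimage hK1.isClosed.measurableSet.nullMeasurableSet]
      rfl
    rw [e1, e2]; exact hc

end Transport

section Product

variable {V W : Type*} [NormedAddCommGroup V] [InnerProductSpace ℝ V] [FiniteDimensional ℝ V]
  [MeasurableSpace V] [BorelSpace V] [NormedAddCommGroup W] [InnerProductSpace ℝ W]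
  [FiniteDimensional ℝ W] [MeasurableSpace W] [BorelSpace W]

lemma Good.prod {c d : ℝ} (h1 : Good V c) (h2 : Good W d) :
    Good (WithLp 2 (V × W)) (c * d) := by
  obtain ⟨K, ⟨hK1, hK2, hK3, hK4⟩, F, ⟨hF1, hF2, hF3, hF4, hF5⟩, hc⟩ := h1
  obtain ⟨L, ⟨hL1, hL2, hL3, hL4⟩, G, ⟨hG1, hG2, hG3, hG4, hG5⟩, hd'⟩ := h2
  have mp : MeasurePreserving (WithLp.ofLp : WithLp 2 (V × W) → V × W) :=
    WithLp.volume_preserving_ofLp V W
  have hme : MeasurableEmbedding (WithLp.ofLp : WithLp 2 (V × W) → V × W) :=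
    (MeasurableEquiv.toLp 2 (V × W)).symm.measurableEmbedding
  set E := WithLp.prodContinuousLinearEquiv 2 ℝ V W with hE
  have hEx : ∀ x, E x = x.ofLp := fun x => rfl
  have cF : Continuous (fun x : WithLp 2 (V × W) => x.ofLp.1) :=
    continuous_fst.comp E.continuous
  have cS : Continuous (fun x : WithLp 2 (V × W) => x.ofLp.2) :=
    continuous_snd.comp E.continuous
  have hcl : IsClosed ((WithLp.ofLp : WithLp 2 (V × W) → V × W) ⁻¹' (K ×ˢ L)) :=
    (hK1.isClosed.prod hL1.isClosed).preimage E.continuous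
  have hFT : ∀ ξ : WithLp 2 (V × W),
      𝓕 (fun x : WithLp 2 (V × W) => ((F x.ofLp.1 * G x.ofLp.2 : ℝ) : ℂ)) ξ =
        𝓕 (fun x => (F x : ℂ)) ξ.ofLp.1 * 𝓕 (fun x => (G x : ℂ)) ξ.ofLp.2 := by
    intro ξ
    rw [Real.fourier_eq, Real.fourier_eq, Real.fourier_eq, ← integral_prod_mul]
    rw [← Measure.volume_eq_prod, ← mp.integral_comp hme]
    apply integral_congr_ae
    filter_upwards with v
    rw [WithLp.prod_inner_apply]
    simp only [Circle.smul_def, smul_eq_mul, neg_add, AddChar.map_add_eq_mul, Circle.coe_mul]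
    push_cast
    ring
  refine ⟨(WithLp.ofLp : WithLp 2 (V × W) → V × W) ⁻¹' (K ×ˢ L), ⟨?_, ?_, ?_, ?_⟩,
    fun x => F x.ofLp.1 * G x.ofLp.2, ⟨?_, ?_, ?_, ?_, ?_⟩, ?_⟩
  · exact E.toHomeomorph.isCompact_preimage.2 (hK1.prod hL1)
  · exact (hK2.prod hL2).linear_preimage E.toLinearEquiv.toLinearMap
  · rintro x ⟨hx1, hx2⟩
    exact ⟨hK3 _ hx1, hL3 _ hx2⟩
  · have : interior ((WithLp.ofLp : WithLp 2 (V × W) → V × W) ⁻¹' (K ×ˢ L)) =
        (WithLp.ofLp : WithLp 2 (V × W) → V × W) ⁻¹' (interior (K ×ˢ L)) :=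
      (E.toHomeomorph.preimage_interior (K ×ˢ L)).symm
    rw [this, interior_prod_eq]
    obtain ⟨y, hy⟩ := hK4
    obtain ⟨z, hz⟩ := hL4
    exact ⟨WithLp.toLp 2 (y, z), hy, hz⟩
  · exact (hF1.comp cF).mul (hG1.comp cS)
  · exact (mp.integrable_comp_emb hme).2 (hF2.mul_prod hG2)
  · intro x; exact mul_nonneg (hF3 _) (hG3 _)
  · show 1 ≤ F 0 * G 0
    nlinarith
  · refine closure_minimal ?_ hcl
    intro ξ hξ
    rw [Function.mem_support, hFT ξ] at hξ
    exact ⟨hF5 (subset_tsupport _ (left_ne_zero_of_mul hξ)),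
      hG5 (subset_tsupport _ (right_ne_zero_of_mul hξ))⟩
  · have e1 : ∫ x : WithLp 2 (V × W), F x.ofLp.1 * G x.ofLp.2 = (∫ x, F x) * ∫ x, G x := by
      rw [← integral_prod_mul, ← Measure.volume_eq_prod, ← mp.integral_comp hme]
    have e2 : volume.real ((WithLp.ofLp : WithLp 2 (V × W) → V × W) ⁻¹' (K ×ˢ L)) =
        volume.real K * volume.real L := by
      rw [Measure.real, mp.measure_preimage
        (hK1.isClosed.prod hL1.isClosed).measurableSet.nullMeasurableSet,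
        Measure.volume_eq_prod, Measure.prod_prod, ENNReal.toReal_mul]
      rfl
    rw [e1, e2]
    have a1 : 0 ≤ volume.real K * ∫ x, F x := mul_nonneg measureReal_nonneg (integral_nonneg hF3)
    have a2 : 0 ≤ volume.real L * ∫ x, G x := mul_nonneg measureReal_nonneg (integral_nonneg hG3)
    calc volume.real K * volume.real L * ((∫ x, F x) * ∫ x, G x) =
        (volume.real K * ∫ x, F x) * (volume.real L * ∫ x, G x) := by ring
      _ ≤ c * d := mul_le_mul hc hd' a2 (a1.trans hc)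

end Product

end Pool.Agent.H10.TU
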