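import Mathlib

set_option autoImplicit false

open Complex Filter Topology MeasureTheory FourierTransform
open scoped InnerProductSpace SchwartzMap ENNReal ContDiff ComplexConjugate

namespace Pool.Agent.H10.TU

variable {V : Type*} [NormedAddCommGroup V] [InnerProductSpace ℝ V] [FiniteDimensional ℝ V]
  [MeasurableSpace V] [BorelSpace V]

lemma fourier_cont (h : V → ℂ) (h1 : Integrable h) : Continuous (𝓕 h) :=
  VectorFourier.fourierIntegral_continuous Real.continuous_fourierChar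
      (innerSL ℝ).continuous₂ h1

lemma fourier_toLp_ae (h : V → ℂ) (h1 : Integrable h) (h2 : MemLp h 2) :
    (𝓕 (h2.toLp h : Lp (α := V) ℂ 2) : Lp (α := V) ℂ 2) =ᵐ[volume] 𝓕 h := by
  apply ae_eq_of_integral_contDiff_smul_eq
  · exact (Lp.memLp _).locallyIntegrable (by norm_num)
  · exact (fourier_cont h h1).locallyIntegrable
  · intro g g_smooth g_cpt
    have hg₁ : HasCompactSupport (Complex.ofRealCLM ∘ g) := g_cpt.comp_left rfl
    have hg₂ : ContDiff ℝ ∞ (Complex.ofRealCLM ∘ g) := by fun_prop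
    set G : 𝓢(V, ℂ) := hg₁.toSchwartzMap hg₂ with hG
    have e1 : ∫ x, g x • (𝓕 (h2.toLp h : Lp (α := V) ℂ 2) : Lp (α := V) ℂ 2) x
        = (Lp.toTemperedDistribution (𝓕 (h2.toLp h : Lp (α := V) ℂ 2) : Lp (α := V) ℂ 2)) G := by
      rw [Lp.toTemperedDistribution_apply]
      simp [hG]
    rw [e1, ← Lp.fourier_toTemperedDistribution_eq, TemperedDistribution.fourier_apply,
      Lp.toTemperedDistribution_apply]
    have e2 : ∫ x, (𝓕 G) x • (h2.toLp h : Lp (α := V) ℂ 2) x = ∫ x, (𝓕 (G : V → ℂ)) x • h x := by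
      apply integral_congr_ae
      filter_upwards [h2.coeFn_toLp] with x hx
      rw [hx]
      rfl
    rw [e2]
    have e3 : ∫ x, (𝓕 (G : V → ℂ)) x • h x = ∫ x, (G x) • (𝓕 h) x := by
      simpa using! (VectorFourier.integral_fourierIntegral_smul_eq_flip (L := innerₗ V)
        Real.continuous_fourierChar continuous_inner G.integrable h1)
    rw [e3]
    apply integral_congr_ae
    filter_upwards with x
    simp [hG]

lemma memLp_fourier (h : V → ℂ) (h1 : Integrable h) (h2 : MemLp h 2) : MemLp (𝓕 h) 2 :=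
  (memLp_congr_ae (fourier_toLp_ae h h1 h2)).1 (Lp.memLp _)

lemma parseval (f g : V → ℂ) (f1 : Integrable f) (f2 : MemLp f 2) (g1 : Integrable g)
    (g2 : MemLp g 2) : ∫ ξ, 𝓕 f ξ * conj (𝓕 g ξ) = ∫ x, f x * conj (g x) := by
  have h := Lp.inner_fourier_eq (E := V) (F := ℂ) (g2.toLp g) (f2.toLp f)
  rw [L2.inner_def, L2.inner_def] at h
  have e1 : ∫ a, inner ℂ ((𝓕 (g2.toLp g : Lp (α := V) ℂ 2) : Lp (α := V) ℂ 2) a)
      ((𝓕 (f2.toLp f : Lp (α := V) ℂ 2) : Lp (α := V) ℂ 2) a) = ∫ ξ, 𝓕 f ξ * conj (𝓕 g ξ) := by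
    apply integral_congr_ae
    filter_upwards [fourier_toLp_ae f f1 f2, fourier_toLp_ae g g1 g2] with x h1 h2
    rw [h1, h2]
    simp [RCLike.inner_apply]
  have e2 : ∫ a, inner ℂ ((g2.toLp g : Lp (α := V) ℂ 2) a)
      ((f2.toLp f : Lp (α := V) ℂ 2) a) = ∫ x, f x * conj (g x) := by
    apply integral_congr_ae
    filter_upwards [f2.coeFn_toLp, g2.coeFn_toLp] with x h1 h2
    rw [h1, h2]
    simp [RCLike.inner_apply]
  rw [← e1, ← e2]
  exact h

lemma fourier_shift (f : V → ℂ) (x ξ : V) :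
    𝓕 (fun y => f (y - x)) ξ = Real.fourierChar (-(inner ℝ x ξ)) • 𝓕 f ξ := by
  have h := congrFun (VectorFourier.fourierIntegral_comp_add_right (V := V) (W := V)
    Real.fourierChar volume (innerₗ V) f (-x)) ξ
  have e : (f ∘ fun v => v + -x) = fun y => f (y - x) := by
    funext y; simp [sub_eq_add_neg]
  rw [e] at h
  have e2 : (innerₗ V) (-x) ξ = -(inner ℝ x ξ) := by simp
  rw [e2] at h
  exact h

section Gram

variable {ι : Type*} [Fintype ι]

/-- The complex quadratic expression. -/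
noncomputable def Fc (e : ι → V → ℝ) (X : ι → ι → ℝ) (ξ : V) : ℂ :=
  ∑ p, ∑ q, (X p q : ℂ) * (𝓕 (fun x => (e p x : ℂ)) ξ * conj (𝓕 (fun x => (e q x : ℂ)) ξ))

/-- The band-limited function attached to step functions and a Gram matrix. -/
noncomputable def Fr (e : ι → V → ℝ) (X : ι → ι → ℝ) (ξ : V) : ℝ := (Fc e X ξ).re

variable {e : ι → V → ℝ} {X : ι → ι → ℝ}

lemma Fr_coe (hs : ∀ p q, X p q = X q p) (ξ : V) : (Fr e X ξ : ℂ) = Fc e X ξ := by
  unfold Fr
  apply Complex.conj_eq_iff_re.1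
  unfold Fc
  rw [map_sum]
  simp only [map_sum, map_mul, Complex.conj_conj, Complex.conj_ofReal]
  rw [Finset.sum_comm]
  apply Finset.sum_congr rfl; intro p _
  apply Finset.sum_congr rfl; intro q _
  rw [hs q p]
  ring

lemma Fr_nonneg (hp : ∀ z : ι → ℂ, 0 ≤ (∑ p, ∑ q, (X p q : ℂ) * (z p * conj (z q))).re) (ξ : V) :
    0 ≤ Fr e X ξ := hp _

lemma Fr_cont (h1 : ∀ p, Integrable (fun x => (e p x : ℂ))) : Continuous (Fr e X) := by
  have : Continuous (Fc e X) := by
    unfold Fc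
    apply continuous_finsetSum; intro p _
    apply continuous_finsetSum; intro q _
    exact continuous_const.mul ((fourier_cont _ (h1 p)).mul
      (Complex.continuous_conj.comp (fourier_cont _ (h1 q))))
  exact Complex.continuous_re.comp this

lemma prod_integrable (h1 : ∀ p, Integrable (fun x => (e p x : ℂ)))
    (h2 : ∀ p, MemLp (fun x => (e p x : ℂ)) 2) (p q : ι) :
    Integrable (fun ξ => 𝓕 (fun x => (e p x : ℂ)) ξ * conj (𝓕 (fun x => (e q x : ℂ)) ξ)) := by
  have a := memLp_fourier _ (h1 p) (h2 p)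
  have b := (memLp_fourier _ (h1 q) (h2 q)).star
  exact a.integrable_mul b

lemma Fc_integrable (h1 : ∀ p, Integrable (fun x => (e p x : ℂ)))
    (h2 : ∀ p, MemLp (fun x => (e p x : ℂ)) 2) : Integrable (Fc e X) := by
  unfold Fc
  apply integrable_finsetSum; intro p _
  apply integrable_finsetSum; intro q _
  exact (prod_integrable h1 h2 p q).const_mul _

lemma Fr_integrable (h1 : ∀ p, Integrable (fun x => (e p x : ℂ)))
    (h2 : ∀ p, MemLp (fun x => (e p x : ℂ)) 2) : Integrable (Fr e X) :=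
  (Fc_integrable h1 h2).re

lemma fourier_prod (h1 : ∀ p, Integrable (fun x => (e p x : ℂ)))
    (h2 : ∀ p, MemLp (fun x => (e p x : ℂ)) 2) (p q : ι) (x : V) :
    𝓕 (fun ξ => 𝓕 (fun x => (e p x : ℂ)) ξ * conj (𝓕 (fun x => (e q x : ℂ)) ξ)) x =
      ((∫ y, e p (y - x) * e q y : ℝ) : ℂ) := by
  rw [Real.fourier_eq]
  have e1 : ∀ ξ : V, Real.fourierChar (-(inner ℝ ξ x)) •
      (𝓕 (fun x => (e p x : ℂ)) ξ * conj (𝓕 (fun x => (e q x : ℂ)) ξ)) =
      𝓕 (fun y => ((e p (y - x) : ℝ) : ℂ)) ξ * conj (𝓕 (fun x => (e q x : ℂ)) ξ) := by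
    intro ξ
    rw [fourier_shift (fun y => ((e p y : ℝ) : ℂ)) x ξ, real_inner_comm]
    simp only [Circle.smul_def, smul_eq_mul]
    ring
  rw [integral_congr_ae (Eventually.of_forall e1)]
  rw [parseval (fun y => ((e p (y - x) : ℝ) : ℂ)) (fun x => (e q x : ℂ))
    ((h1 p).comp_sub_right x) ((h2 p).comp_measurePreserving (measurePreserving_sub_right _ x))
    (h1 q) (h2 q)]
  rw [← integral_complex_ofReal]
  apply integral_congr_ae
  filter_upwards with y
  simp

lemma fourier_Fr (hs : ∀ p q, X p q = X q p) (h1 : ∀ p, Integrable (fun x => (e p x : ℂ)))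
    (h2 : ∀ p, MemLp (fun x => (e p x : ℂ)) 2) (x : V) :
    𝓕 (fun ξ => (Fr e X ξ : ℂ)) x =
      ((∑ p, ∑ q, X p q * ∫ y, e p (y - x) * e q y : ℝ) : ℂ) := by
  have e0 : (fun ξ => (Fr e X ξ : ℂ)) = Fc e X := by funext ξ; exact Fr_coe hs ξ
  rw [e0, Real.fourier_eq]
  unfold Fc
  simp only [Finset.smul_sum]
  have hi : ∀ p q, Integrable (fun ξ : V => Real.fourierChar (-(inner ℝ ξ x)) •
      ((X p q : ℂ) * (𝓕 (fun x => (e p x : ℂ)) ξ * conj (𝓕 (fun x => (e q x : ℂ)) ξ)))) := by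
    intro p q
    exact (Real.fourierIntegral_convergent_iff x).2 ((prod_integrable h1 h2 p q).const_mul _)
  rw [integral_finsetSum _ (fun p _ => integrable_finsetSum _ (fun q _ => hi p q))]
  push_cast
  apply Finset.sum_congr rfl; intro p _
  rw [integral_finsetSum _ (fun q _ => hi p q)]
  apply Finset.sum_congr rfl; intro q _
  have h := fourier_prod h1 h2 p q x
  rw [Real.fourier_eq] at h
  rw [← h, ← integral_const_mul]
  apply integral_congr_ae
  filter_upwards with ξ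
  simp only [Circle.smul_def, smul_eq_mul]
  ring

lemma integral_Fr (hs : ∀ p q, X p q = X q p) (h1 : ∀ p, Integrable (fun x => (e p x : ℂ)))
    (h2 : ∀ p, MemLp (fun x => (e p x : ℂ)) 2) :
    ∫ ξ, Fr e X ξ = ∑ p, ∑ q, X p q * ∫ y, e p y * e q y := by
  have h := fourier_Fr hs h1 h2 0
  rw [Real.fourier_eq] at h
  simp only [inner_zero_right, neg_zero, AddChar.map_zero_eq_one, one_smul, sub_zero] at h
  rw [integral_complex_ofReal] at h
  exact_mod_cast h

lemma Fr_zero : Fr e X (0 : V) = ∑ p, ∑ q, X p q * ((∫ y, e p y) * ∫ y, e q y) := by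
  have hz : ∀ p, 𝓕 (fun x => (e p x : ℂ)) (0 : V) = ((∫ y, e p y : ℝ) : ℂ) := by
    intro p
    rw [Real.fourier_eq]
    simp only [inner_zero_right, neg_zero, AddChar.map_zero_eq_one, one_smul]
    exact integral_complex_ofReal
  unfold Fr Fc
  simp only [hz, Complex.conj_ofReal]
  rw [← Complex.ofReal_re (∑ p, ∑ q, X p q * ((∫ y, e p y) * ∫ y, e q y))]
  congr 1
  push_cast
  rfl

end Gram

end Pool.Agent.H10.TU
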