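import Mathlib

set_option autoImplicit false

open Finset
open scoped ComplexConjugate

namespace Pool.Agent.H10.TU

/-- Reindexing of a double sum by the difference of the indices. -/
lemma reidx (v : ℕ → ℕ → Prop) [∀ i a, Decidable (v i a)]
    (hv : ∀ i a, v i a ↔ i ≤ a + 8 ∧ a + 8 ≤ i + 8) (G : ℕ → ℕ → ℝ) :
    ∑ a ∈ range 9, ∑ a' ∈ range 9, G a a' =
      ∑ i ∈ range 17, ∑ a ∈ range 9, if v i a then G a (a + 8 - i) else 0 := by
  rw [sum_comm (s := range 17)]
  apply sum_congr rfl; intro a ha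
  rw [mem_range] at ha
  rw [← sum_filter]
  refine sum_nbij' (fun a' => a + 8 - a') (fun i => a + 8 - i) ?_ ?_ ?_ ?_ ?_
  · intro a' h
    rw [mem_range] at h
    rw [mem_filter, mem_range, hv]
    omega
  · intro i h
    rw [mem_filter, mem_range, hv] at h
    rw [mem_range]; omega
  · intro a' h
    rw [mem_range] at h
    show a + 8 - (a + 8 - a') = a'
    omega
  · intro i h
    rw [mem_filter, mem_range, hv] at h
    show a + 8 - (a + 8 - i) = i
    omega
  · intro a' h
    rw [mem_range] at h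
    show G a a' = G a (a + 8 - (a + 8 - a'))
    congr 1; omega

lemma regroup (v : ℕ → ℕ → Prop) [∀ i a, Decidable (v i a)]
    (hv : ∀ i a, v i a ↔ i ≤ a + 8 ∧ a + 8 ≤ i + 8)
    (Xf : ℕ → ℕ → ℕ → ℕ → ℕ → ℕ → ℝ) (Φ : ℕ → ℕ → ℕ → ℕ → ℝ) :
    ∑ a ∈ range 9, ∑ b ∈ range 9, ∑ al ∈ range 3, ∑ a' ∈ range 9, ∑ b' ∈ range 9,
      ∑ be ∈ range 3, Xf a b al a' b' be * Φ (a + 8 - a') (b + 8 - b') al be =
    ∑ i ∈ range 17, ∑ j ∈ range 17, ∑ al ∈ range 3, ∑ be ∈ range 3,
      (∑ a ∈ range 9, if v i a then (∑ b ∈ range 9, if v j b then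
        Xf a b al (a + 8 - i) (b + 8 - j) be else 0) else 0) * Φ i j al be := by
  -- bring the left side to the order a, a', b, b', al, be
  have h1 : ∀ h : ℕ → ℕ → ℕ → ℕ → ℕ → ℕ → ℝ,
      ∑ a ∈ range 9, ∑ b ∈ range 9, ∑ al ∈ range 3, ∑ a' ∈ range 9, ∑ b' ∈ range 9,
        ∑ be ∈ range 3, h a b al a' b' be =
      ∑ a ∈ range 9, ∑ a' ∈ range 9, ∑ b ∈ range 9, ∑ b' ∈ range 9, ∑ al ∈ range 3,
        ∑ be ∈ range 3, h a b al a' b' be := by
    intro h
    apply sum_congr rfl; intro a _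
    have e1 : ∑ b ∈ range 9, ∑ al ∈ range 3, ∑ a' ∈ range 9, ∑ b' ∈ range 9,
        ∑ be ∈ range 3, h a b al a' b' be =
        ∑ b ∈ range 9, ∑ a' ∈ range 9, ∑ al ∈ range 3, ∑ b' ∈ range 9,
        ∑ be ∈ range 3, h a b al a' b' be := by
      apply sum_congr rfl; intro b _
      rw [sum_comm]
    rw [e1, sum_comm]
    apply sum_congr rfl; intro a' _
    apply sum_congr rfl; intro b _
    rw [sum_comm]
  rw [h1]
  have h2 : ∀ G : ℕ → ℕ → ℕ → ℕ → ℝ,
      ∑ a ∈ range 9, ∑ a' ∈ range 9, ∑ b ∈ range 9, ∑ b' ∈ range 9, G a a' b b' =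
      ∑ i ∈ range 17, ∑ a ∈ range 9, if v i a then (∑ j ∈ range 17, ∑ b ∈ range 9,
        if v j b then G a (a + 8 - i) b (b + 8 - j) else 0) else 0 := by
    intro G
    rw [reidx v hv]
    apply sum_congr rfl; intro i _
    apply sum_congr rfl; intro a _
    rw [reidx v hv]
  rw [h2]
  apply sum_congr rfl; intro i _
  -- right side: move the sum over a outwards
  have h3 : ∑ j ∈ range 17, ∑ al ∈ range 3, ∑ be ∈ range 3,
      (∑ a ∈ range 9, if v i a then (∑ b ∈ range 9, if v j b then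
        Xf a b al (a + 8 - i) (b + 8 - j) be else 0) else 0) * Φ i j al be =
      ∑ a ∈ range 9, ∑ j ∈ range 17, ∑ al ∈ range 3, ∑ be ∈ range 3,
        (if v i a then (∑ b ∈ range 9, if v j b then
        Xf a b al (a + 8 - i) (b + 8 - j) be else 0) else 0) * Φ i j al be := by
    rw [sum_comm (s := range 9)]
    apply sum_congr rfl; intro j _
    rw [sum_comm (s := range 9)]
    apply sum_congr rfl; intro al _
    rw [sum_comm (s := range 9)]
    apply sum_congr rfl; intro be _
    rw [sum_mul]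
  rw [h3]
  apply sum_congr rfl; intro a _
  by_cases ha : v i a
  · simp only [if_pos ha]
    apply sum_congr rfl; intro j _
    have h4 : ∑ al ∈ range 3, ∑ be ∈ range 3, (∑ b ∈ range 9, if v j b then
        Xf a b al (a + 8 - i) (b + 8 - j) be else 0) * Φ i j al be =
        ∑ b ∈ range 9, ∑ al ∈ range 3, ∑ be ∈ range 3, (if v j b then
        Xf a b al (a + 8 - i) (b + 8 - j) be else 0) * Φ i j al be := by
      rw [sum_comm (s := range 9)]
      apply sum_congr rfl; intro al _
      rw [sum_comm (s := range 9)]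
      apply sum_congr rfl; intro be _
      rw [sum_mul]
    rw [h4]
    apply sum_congr rfl; intro b _
    by_cases hb : v j b
    · simp only [if_pos hb]
      have e1 : a + 8 - (a + 8 - i) = i := by rw [hv] at ha; omega
      have e2 : b + 8 - (b + 8 - j) = j := by rw [hv] at hb; omega
      rw [e1, e2]
    · simp only [if_neg hb, zero_mul, sum_const_zero]
  · simp only [if_neg ha, zero_mul, sum_const_zero]

/-- Pulling back a hermitian form along an index map. -/
lemma form_pull {ι : Type*} [Fintype ι] (n : ℕ) (id : ι → ℕ) (hid : ∀ p, id p < n)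
    (x : ℕ → ℕ → ℝ) (y : ι → ℂ) :
    ∑ i ∈ range n, ∑ j ∈ range n, (x i j : ℂ) *
      ((∑ p, if id p = i then y p else 0) * conj (∑ p, if id p = j then y p else 0)) =
    ∑ p, ∑ p', (x (id p) (id p') : ℂ) * (y p * conj (y p')) := by
  have e1 : ∀ i j : ℕ, (x i j : ℂ) *
      ((∑ p, if id p = i then y p else 0) * conj (∑ p, if id p = j then y p else 0)) =
      ∑ p, ∑ p', if id p = i then (if id p' = j then (x i j : ℂ) * (y p * conj (y p')) else 0)
        else 0 := by
    intro i j
    rw [map_sum, sum_mul_sum, mul_sum]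
    apply sum_congr rfl; intro p _
    rw [mul_sum]
    apply sum_congr rfl; intro p' _
    by_cases h1 : id p = i <;> by_cases h2 : id p' = j <;> simp [h1, h2]
  simp only [e1]
  have e2 : ∀ i : ℕ, ∑ j ∈ range n, ∑ p, ∑ p', (if id p = i then
      (if id p' = j then (x i j : ℂ) * (y p * conj (y p')) else 0) else 0) =
      ∑ p, ∑ p', if id p = i then (x i (id p') : ℂ) * (y p * conj (y p')) else 0 := by
    intro i
    rw [sum_comm]
    apply sum_congr rfl; intro p _
    rw [sum_comm]
    apply sum_congr rfl; intro p' _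
    by_cases h1 : id p = i
    · simp only [if_pos h1]
      rw [sum_ite_eq]
      rw [if_pos (mem_range.2 (hid p'))]
    · simp only [if_neg h1, sum_const_zero]
  simp only [e2]
  rw [sum_comm]
  apply sum_congr rfl; intro p _
  rw [sum_comm]
  apply sum_congr rfl; intro p' _
  rw [sum_ite_eq, if_pos (mem_range.2 (hid p))]

end Pool.Agent.H10.TU
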