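import Pool.Agent.H10.TU.Check2
import Pool.Agent.H10.TU.Regroup
import Pool.Agent.H10.TU.Four

set_option autoImplicit false

open Finset MeasureTheory FourierTransform
open scoped ComplexConjugate

namespace Pool.Agent.H10.TU

/-- Index set of the step functions: cell `(a, b)` and kind. -/
abbrev Idx := Fin 9 × Fin 9 × Fin 3

noncomputable def eF (p : Idx) : E2 → ℝ := ef p.1 p.2.1 p.2.2

noncomputable def XR (p p' : Idx) : ℝ :=
  (xv (idx p.1 p.2.1 p.2.2) (idx p'.1 p'.2.1 p'.2.2) : ℝ)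

lemma XR_symm (p p' : Idx) : XR p p' = XR p' p := by unfold XR; rw [xv_symm]

lemma XR_psd (y : Idx → ℂ) : 0 ≤ (∑ p, ∑ q, (XR p q : ℂ) * (y p * conj (y q))).re := by
  have h := psd118 (fun k => ∑ p : Idx, if idx p.1 p.2.1 p.2.2 = k then y p else 0)
  have e := form_pull (ι := Idx) 118 (fun p => idx p.1 p.2.1 p.2.2)
    (fun p => idx_lt _ _ _ p.1.2 p.2.1.2 p.2.2.2) (fun i j => (xv i j : ℝ)) y
  rw [e] at h
  exact h

lemma sum_Idx (f : ℕ → ℕ → ℕ → ℕ → ℕ → ℕ → ℝ) :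
    ∑ p : Idx, ∑ q : Idx, f p.1 p.2.1 p.2.2 q.1 q.2.1 q.2.2 =
    ∑ a ∈ range 9, ∑ b ∈ range 9, ∑ al ∈ range 3, ∑ a' ∈ range 9, ∑ b' ∈ range 9,
      ∑ be ∈ range 3, f a b al a' b' be := by
  simp only [Fintype.sum_prod_type, Finset.sum_range]

lemma vld_iff (i a : ℕ) : vld i a = true ↔ i ≤ a + 8 ∧ a + 8 ≤ i + 8 := by
  unfold vld
  rw [Bool.and_eq_true]
  constructor
  · rintro ⟨h1, h2⟩; exact ⟨Nat.le_of_ble_eq_true h1, Nat.le_of_ble_eq_true h2⟩
  · rintro ⟨h1, h2⟩; exact ⟨Nat.ble_eq_true_of_le h1, Nat.ble_eq_true_of_le h2⟩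

/-- All sums over pairs of step functions reduce to class sums. -/
lemma sum_classes (Φ : ℕ → ℕ → ℕ → ℕ → ℝ) :
    ∑ p : Idx, ∑ q : Idx, XR p q * Φ (p.1 + 8 - q.1) (p.2.1 + 8 - q.2.1) p.2.2 q.2.2 =
    ∑ i ∈ range 17, ∑ j ∈ range 17, ∑ al ∈ range 3, ∑ be ∈ range 3,
      (av i j al be : ℝ) * Φ i j al be := by
  have h := sum_Idx (fun a b al a' b' be => (xv (idx a b al) (idx a' b' be) : ℝ) *
    Φ (a + 8 - a') (b + 8 - b') al be)
  have h2 := regroup (fun i a => vld i a = true) vld_iff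
    (fun a b al a' b' be => (xv (idx a b al) (idx a' b' be) : ℝ)) Φ
  refine (h.trans h2).trans ?_
  apply sum_congr rfl; intro i hi
  apply sum_congr rfl; intro j hj
  apply sum_congr rfl; intro al hal
  apply sum_congr rfl; intro be hbe
  rw [mem_range] at hi hj hal hbe
  rw [← cls i j al be hi hj hal hbe]
  push_cast
  rfl

lemma pt_diff (x : E2) {a a' b b' : ℕ} (ha : a' < 9) (hb : b' < 9) :
    x + pt (a : ℝ) (b : ℝ) - pt (a' : ℝ) (b' : ℝ) =
      x + pt (((a + 8 - a' : ℕ) : ℝ) - 8) (((b + 8 - b' : ℕ) : ℝ) - 8) := by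
  have e1 : ((a + 8 - a' : ℕ) : ℝ) = a + 8 - a' := by
    rw [Nat.cast_sub (by omega)]; push_cast; ring
  have e2 : ((b + 8 - b' : ℕ) : ℝ) = b + 8 - b' := by
    rw [Nat.cast_sub (by omega)]; push_cast; ring
  rw [e1, e2]
  ext k
  fin_cases k
  · simp; ring
  · simp; ring

lemma corr_sum (x : E2) :
    ∑ p : Idx, ∑ q : Idx, XR p q * ∫ y, eF p (y - x) * eF q y =
    ∑ i ∈ range 17, ∑ j ∈ range 17, ∑ q ∈ range 4, ∑ r ∈ range 4,
      (bz i j q r : ℝ) * mm q r (x + pt ((i : ℝ) - 8) ((j : ℝ) - 8)) := by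
  have e1 : ∀ p q : Idx, XR p q * ∫ y, eF p (y - x) * eF q y =
      XR p q * (fun i j al be => ∑ s ∈ range 4, ∑ r ∈ range 4, sg al s * sg be r *
        mm s r (x + pt ((i : ℝ) - 8) ((j : ℝ) - 8))) (p.1 + 8 - q.1 : ℕ) (p.2.1 + 8 - q.2.1 : ℕ)
        (p.2.2 : ℕ) (q.2.2 : ℕ) := by
    intro p q
    unfold eF
    rw [ef_corr, pt_diff x q.1.2 q.2.1.2]
  simp only [e1]
  rw [sum_classes (fun i j al be => ∑ s ∈ range 4, ∑ r ∈ range 4, sg al s * sg be r *
        mm s r (x + pt ((i : ℝ) - 8) ((j : ℝ) - 8)))]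
  apply sum_congr rfl; intro i _
  apply sum_congr rfl; intro j _
  have e2 : ∀ q r : ℕ, (bz i j q r : ℝ) * mm q r (x + pt ((i : ℝ) - 8) ((j : ℝ) - 8)) =
      ∑ al ∈ range 3, ∑ be ∈ range 3, (av i j al be : ℝ) * (sg al q * sg be r *
        mm q r (x + pt ((i : ℝ) - 8) ((j : ℝ) - 8))) := by
    intro q r
    unfold bz
    push_cast
    rw [sum_mul]
    apply sum_congr rfl; intro al _
    rw [sum_mul]
    apply sum_congr rfl; intro be _
    rw [sg_eq, sg_eq]; ring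
  simp only [e2, mul_sum]
  -- reorder: al, be, q, r  versus  q, r, al, be
  have h : ∀ h : ℕ → ℕ → ℕ → ℕ → ℝ, ∑ al ∈ range 3, ∑ be ∈ range 3, ∑ q ∈ range 4, ∑ r ∈ range 4,
      h al be q r = ∑ q ∈ range 4, ∑ r ∈ range 4, ∑ al ∈ range 3, ∑ be ∈ range 3, h al be q r := by
    intro h
    have a1 : ∀ al : ℕ, ∑ be ∈ range 3, ∑ q ∈ range 4, ∑ r ∈ range 4, h al be q r =
        ∑ q ∈ range 4, ∑ r ∈ range 4, ∑ be ∈ range 3, h al be q r := by
      intro al
      rw [sum_comm]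
      apply sum_congr rfl; intro q _
      rw [sum_comm]
    simp only [a1]
    rw [sum_comm]
    apply sum_congr rfl; intro q _
    rw [sum_comm]
  exact h _

/-- The band-limited function. -/
noncomputable def FO : E2 → ℝ := Fr eF XR

lemma eF_c1 (p : Idx) : Integrable (fun x => (eF p x : ℂ)) := ef_c1 _ _ _
lemma eF_c2 (p : Idx) : MemLp (fun x => (eF p x : ℂ)) 2 := ef_c2 _ _ _

lemma FO_fourier_out {x : E2} (hx : x ∉ Oct) : 𝓕 (fun ξ => (FO ξ : ℂ)) x = 0 := by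
  unfold FO
  rw [fourier_Fr XR_symm eF_c1 eF_c2, corr_sum]
  rw [Complex.ofReal_eq_zero]
  apply sum_eq_zero; intro i hi
  apply sum_eq_zero; intro j hj
  apply sum_eq_zero; intro q hq
  apply sum_eq_zero; intro r hr
  rw [mem_range] at hi hj hq hr
  rcases b_zero i j q r hi hj hq hr with h | h
  · rw [mm_out h hx, mul_zero]
  · rw [h]; simp

lemma FO_integral : ∫ ξ, FO ξ = 99999991 := by
  unfold FO
  rw [integral_Fr XR_symm eF_c1 eF_c2]
  have h := corr_sum 0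
  simp only [sub_zero, zero_add] at h
  rw [h]
  rw [sum_eq_single 8, sum_eq_single 8]
  · have e : ∀ q ∈ range 4, ∑ r ∈ range 4, (bz 8 8 q r : ℝ) *
        mm q r (pt (((8 : ℕ) : ℝ) - 8) (((8 : ℕ) : ℝ) - 8)) = (bz 8 8 q q : ℝ) * (1 / 4) := by
      intro q hq
      rw [sum_eq_single q]
      · have e0 : pt (((8 : ℕ) : ℝ) - 8) (((8 : ℕ) : ℝ) - 8) = 0 := by
          ext k; fin_cases k <;> simp
        rw [e0, mm_self]
      · intro r hr hne
        rw [mem_range] at hq hr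
        rw [mm_origin hq hr (by rintro ⟨-, -, h3⟩; exact hne h3.symm), mul_zero]
      · intro h; exact absurd hq h
    rw [sum_congr rfl e]
    simp only [sum_range_succ, sum_range_zero, zero_add, bz_eq]
    have h1 := tr_chk
    have h2 : ((bzE 8 8 0 0 + bzE 8 8 1 1 + bzE 8 8 2 2 + bzE 8 8 3 3 : ℤ) : ℝ) =
        ((4 * 99999991 : ℤ) : ℝ) := by rw [h1]
    push_cast at h2
    linarith
  · intro j hj hne
    apply sum_eq_zero; intro q hq
    apply sum_eq_zero; intro r hr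
    rw [mem_range] at hq hr
    rw [mm_origin hq hr (by rintro ⟨-, h2, -⟩; exact hne h2), mul_zero]
  · intro h; exact absurd (mem_range.2 (by norm_num)) h
  · intro i hi hne
    apply sum_eq_zero; intro j hj
    apply sum_eq_zero; intro q hq
    apply sum_eq_zero; intro r hr
    rw [mem_range] at hq hr
    rw [mm_origin hq hr (by rintro ⟨h1, -, -⟩; exact hne h1), mul_zero]
  · intro h; exact absurd (mem_range.2 (by norm_num)) h

lemma ef_int_val (a b al : ℕ) (hal : al < 3) :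
    ∫ y, ef a b al y = if al = 0 then 1 else 0 := by
  rw [ef_integral]
  interval_cases al <;> simp [sum_range_succ, sg]

lemma FO_zero : FO 0 = 4101597595 := by
  unfold FO
  rw [Fr_zero]
  have e1 : ∀ p q : Idx, XR p q * ((∫ y, eF p y) * ∫ y, eF q y) =
      XR p q * (fun (_ _ al be : ℕ) => if al = 0 then (if be = 0 then (1 : ℝ) else 0) else 0)
        (p.1 + 8 - q.1 : ℕ) (p.2.1 + 8 - q.2.1 : ℕ) (p.2.2 : ℕ) (q.2.2 : ℕ) := by
    intro p q
    unfold eF
    rw [ef_int_val _ _ _ p.2.2.2, ef_int_val _ _ _ q.2.2.2]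
    congr 1
    by_cases h : (p.2.2 : ℕ) = 0
    · simp [h]
    · simp [h]
  simp only [e1]
  rw [sum_classes (fun (_ _ al be : ℕ) => if al = 0 then (if be = 0 then (1 : ℝ) else 0) else 0)]
  have h := tot_eq
  have h2 : ((∑ i ∈ range 17, ∑ j ∈ range 17, av i j 0 0 : ℤ) : ℝ) = 4101597595 := by
    rw [h]; norm_num
  rw [← h2]
  push_cast
  apply sum_congr rfl; intro i _
  apply sum_congr rfl; intro j _
  simp

end Pool.Agent.H10.TU
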