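import Pool.Agent.H10.TU.Vol
import Pool.Agent.H10.TU.Oct
import Pool.Agent.H10.TU.Def

set_option autoImplicit false

open MeasureTheory Set FourierTransform
open scoped ENNReal ComplexConjugate

namespace Pool.Agent.H10.TU

lemma Oct_body : SymBody Oct := by
  have cl : IsClosed Oct := OP_closed.preimage (show Continuous toPair by
    unfold toPair; fun_prop)
  refine ⟨?_, ?_, ?_, ?_⟩
  · refine Metric.isCompact_of_isClosed_isBounded cl ?_
    refine (Metric.isBounded_closedBall (x := (0 : E2)) (r := 10)).subset ?_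
    intro x hx
    rw [mem_closedBall_zero_iff, EuclideanSpace.norm_eq]
    obtain ⟨h1, h2, -, -⟩ := hx
    simp only [Fin.sum_univ_two, Real.norm_eq_abs]
    rw [Real.sqrt_le_left (by norm_num)]
    have := abs_nonneg (x 0)
    have := abs_nonneg (x 1)
    nlinarith
  · intro x hx y hy a b ha hb hab
    obtain ⟨x1, x2, x3, x4⟩ := hx
    obtain ⟨y1, y2, y3, y4⟩ := hy
    have key : ∀ (u v c : ℝ), |u| ≤ c → |v| ≤ c → |a * u + b * v| ≤ c := by
      intro u v c hu hv
      calc |a * u + b * v| ≤ |a * u| + |b * v| := abs_add_le _ _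
        _ = a * |u| + b * |v| := by rw [abs_mul, abs_mul, abs_of_nonneg ha, abs_of_nonneg hb]
        _ ≤ a * c + b * c := add_le_add (mul_le_mul_of_nonneg_left hu ha)
            (mul_le_mul_of_nonneg_left hv hb)
        _ = c := by rw [← add_mul, hab, one_mul]
    refine ⟨?_, ?_, ?_, ?_⟩
    · simpa using key _ _ _ x1 y1
    · simpa using key _ _ _ x2 y2
    · have := key _ _ _ x3 y3
      have e : (a • x + b • y) 0 + (a • x + b • y) 1 = a * (x 0 + x 1) + b * (y 0 + y 1) := by
        simp; ring
      rw [e]; exact this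
    · have := key _ _ _ x4 y4
      have e : (a • x + b • y) 0 - (a • x + b • y) 1 = a * (x 0 - x 1) + b * (y 0 - y 1) := by
        simp; ring
      rw [e]; exact this
  · rintro x ⟨h1, h2, h3, h4⟩
    refine ⟨by simpa using h1, by simpa using h2, ?_, ?_⟩
    · have e : (-x) 0 + (-x) 1 = -(x 0 + x 1) := by simp; ring
      rw [e, abs_neg]; exact h3
    · have e : (-x) 0 - (-x) 1 = -(x 0 - x 1) := by simp; ring
      rw [e, abs_neg]; exact h4
  · refine ⟨0, mem_interior.2 ⟨{x | |x 0| < 7 ∧ |x 1| < 7 ∧ |x 0 + x 1| < 10 ∧ |x 0 - x 1| < 10},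
      ?_, ?_, ?_⟩⟩
    · rintro x ⟨h1, h2, h3, h4⟩; exact ⟨h1.le, h2.le, h3.le, h4.le⟩
    · have c1 : Continuous (fun x : E2 => |x 0|) := by fun_prop
      have c2 : Continuous (fun x : E2 => |x 1|) := by fun_prop
      have c3 : Continuous (fun x : E2 => |x 0 + x 1|) := by fun_prop
      have c4 : Continuous (fun x : E2 => |x 0 - x 1|) := by fun_prop
      exact (isOpen_lt c1 continuous_const).inter ((isOpen_lt c2 continuous_const).inter
        ((isOpen_lt c3 continuous_const).inter (isOpen_lt c4 continuous_const)))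
    · simp

/-- The admissible function for the octagon. -/
noncomputable def FN (x : E2) : ℝ := FO x / 4101597595

lemma FO_nonneg (x : E2) : 0 ≤ FO x := Fr_nonneg XR_psd x

lemma FO_cont : Continuous FO := Fr_cont eF_c1

lemma FO_int : Integrable FO := Fr_integrable eF_c1 eF_c2

lemma FN_adm : FN ∈ Adm Oct := by
  refine ⟨FO_cont.div_const _, FO_int.div_const _, fun x => div_nonneg (FO_nonneg x) (by norm_num),
    ?_, ?_⟩
  · unfold FN; rw [FO_zero]; norm_num
  · refine closure_minimal ?_ Oct_body.1.isClosed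
    intro x hx
    rw [Function.mem_support] at hx
    by_contra hn
    apply hx
    have h := FO_fourier_out hn
    have e : (fun x => (FN x : ℂ)) = fun x => ((1 / 4101597595 : ℝ) : ℂ) • (FO x : ℂ) := by
      funext y
      unfold FN
      rw [smul_eq_mul, ← Complex.ofReal_mul]
      congr 1; ring
    rw [e, Real.fourier_eq]
    rw [Real.fourier_eq] at h
    have e2 : ∀ v : E2, Real.fourierChar (-(inner ℝ v x)) • (((1 / 4101597595 : ℝ) : ℂ) • (FO v : ℂ)) =
        ((1 / 4101597595 : ℝ) : ℂ) • (Real.fourierChar (-(inner ℝ v x)) • (FO v : ℂ)) := by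
      intro v
      rw [smul_comm]
    simp only [e2]
    rw [integral_smul, h, smul_zero]

lemma FN_integral : ∫ x, FN x = 99999991 / 4101597595 := by
  unfold FN
  rw [integral_div, FO_integral]

/-- The gain for the octagon. -/
lemma good_E2 : Good E2 (4 * (41 * (99999991 / 4101597595))) := by
  refine ⟨Oct, Oct_body, FN, FN_adm, ?_⟩
  rw [vol_Oct, FN_integral]
  norm_num

end Pool.Agent.H10.TU
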