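import Pool.Agent.H10.TU.Data

set_option autoImplicit false

namespace Pool.Agent.H10.TU

/-- Base `2^24` digit number `k` of `r`. -/
def dg (r k : ℕ) : ℕ := Nat.mod (Nat.shiftRight r (Nat.mul 24 k)) 16777216

/-- Index of the entry `(i, j)` in a packed lower triangle. -/
def tr2 (i j : ℕ) : ℕ := Nat.add (Nat.div (Nat.mul i (Nat.succ i)) 2) j

def xd (i j : ℕ) : ℕ := dg XN (tr2 i j)
def ld (i j : ℕ) : ℕ := dg LN (tr2 i j)
def xs (i j : ℕ) : ℕ := cond (Nat.ble j i) (xd i j) (xd j i)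

def Pij (i j : ℕ) : ℕ :=
  Nat.rec (motive := fun _ => ℕ) (Nat.mul 4194304 (xd i j))
    (fun k acc => Nat.add acc (Nat.mul 8388608 (Nat.add (ld i k) (ld j k)))) (Nat.succ j)

def Qij (i j : ℕ) : ℕ :=
  Nat.rec (motive := fun _ => ℕ) (Nat.mul 4194304 8388608)
    (fun k acc => Nat.add acc (Nat.add (Nat.mul (ld i k) (ld j k)) 70368744177664)) (Nat.succ j)

def offOK (i j : ℕ) : Bool :=
  and (Nat.ble (Pij i j) (Nat.add (Qij i j) 3759634))
    (Nat.ble (Qij i j) (Nat.add (Pij i j) 3759634))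

def rowOK (i : ℕ) : Bool :=
  Nat.rec (motive := fun _ => Bool) (Nat.ble (Nat.add (Qij i i) 443636812) (Pij i i))
    (fun j acc => and (offOK i j) acc) i

def allOK (n : ℕ) : Bool :=
  Nat.rec (motive := fun _ => Bool) true (fun i acc => and (rowOK i) acc) n

theorem allOK_chk : allOK 117 = true := by decide +kernel

def zrow (n : ℕ) : Bool :=
  Nat.rec (motive := fun _ => Bool) true
    (fun j acc => and (Nat.beq (xs 117 j) 8388608) acc) n

theorem zrow_chk : zrow 118 = true := by decide +kernel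

/-- Position of the step function `(a, b, al)`. -/
def idx (a b al : ℕ) : ℕ :=
  Nat.mod (Nat.shiftRight idN (Nat.mul 8 (Nat.add (Nat.mul (Nat.add (Nat.mul 9 a) b) 3) al))) 256

/-- Base `2^32` digit of the class sums. -/
def Ad (i j k : ℕ) : ℕ :=
  Nat.mod (Nat.shiftRight AN (Nat.mul 32 (Nat.add (Nat.mul 9 (Nat.add (Nat.mul 17 i) j)) k)))
    4294967296

def vld (i a : ℕ) : Bool :=
  and (Nat.ble i (Nat.add a 8)) (Nat.ble (Nat.add a 8) (Nat.add i 8))

def S1in (i j al be a : ℕ) : ℕ :=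
  Nat.rec (motive := fun _ => ℕ) 0
    (fun b acc => Nat.add acc (cond (vld j b)
      (xs (idx a b al) (idx (Nat.sub (Nat.add a 8) i) (Nat.sub (Nat.add b 8) j) be)) 0)) 9

def S1 (i j al be : ℕ) : ℕ :=
  Nat.rec (motive := fun _ => ℕ) 0
    (fun a acc => Nat.add acc (cond (vld i a) (S1in i j al be a) 0)) 9

def S2in (j : ℕ) : ℕ :=
  Nat.rec (motive := fun _ => ℕ) 0
    (fun b acc => Nat.add acc (cond (vld j b) 8388608 0)) 9

def S2 (i j : ℕ) : ℕ :=
  Nat.rec (motive := fun _ => ℕ) 0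
    (fun a acc => Nat.add acc (cond (vld i a) (S2in j) 0)) 9

def clsOK (i j al be : ℕ) : Bool :=
  Nat.beq (Nat.add (S1 i j al be) 2147483648) (Nat.add (Ad i j (Nat.add (Nat.mul 3 al) be)) (S2 i j))

def allB (f : ℕ → Bool) (n : ℕ) : Bool :=
  Nat.rec (motive := fun _ => Bool) true (fun i acc => and (f i) acc) n

def clsAll : Bool :=
  allB (fun i => allB (fun j => allB (fun al => allB (fun be => clsOK i j al be) 3) 3) 17) 17

theorem clsAll_chk : clsAll = true := by decide +kernel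

end Pool.Agent.H10.TU
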