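import Pool.Agent.H10.TU.Spec

set_option autoImplicit false

open Finset

namespace Pool.Agent.H10.TU

/-- Integer version of the signs. -/
def sgZ : ℕ → ℕ → ℤ
  | 0, _ => 1
  | 1, 0 => -1
  | 1, 1 => -1
  | 1, _ => 1
  | _, 0 => 1
  | _, 1 => -1
  | _, 2 => -1
  | _, _ => 1

lemma sg_eq (al q : ℕ) : sg al q = (sgZ al q : ℝ) := by
  unfold sg sgZ
  split <;> simp

/-- Coefficient of the correlation of the quarters `q`, `r` at offset `(i - 8, j - 8)`. -/
def bz (i j q r : ℕ) : ℤ :=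
  ∑ al ∈ range 3, ∑ be ∈ range 3, sgZ al q * sgZ be r * av i j al be

/-- The same, unfolded. -/
def bzE (i j q r : ℕ) : ℤ :=
  sgZ 0 q * (sgZ 0 r * av i j 0 0 + (sgZ 1 r * av i j 0 1 + sgZ 2 r * av i j 0 2)) +
  (sgZ 1 q * (sgZ 0 r * av i j 1 0 + (sgZ 1 r * av i j 1 1 + sgZ 2 r * av i j 1 2)) +
  sgZ 2 q * (sgZ 0 r * av i j 2 0 + (sgZ 1 r * av i j 2 1 + sgZ 2 r * av i j 2 2)))

lemma bz_eq (i j q r : ℕ) : bz i j q r = bzE i j q r := by
  unfold bz bzE
  simp only [sum_range_succ, sum_range_zero]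
  ring

def bOK (i j q r : ℕ) : Bool := or (cont i j q r) (decide (bzE i j q r = 0))

def bAll : Bool := allB (fun i => allB (fun j => allB (fun q => allB (fun r => bOK i j q r) 4) 4) 17) 17

theorem bAll_chk : bAll = true := by decide +kernel

lemma b_zero (i j q r : ℕ) (hi : i < 17) (hj : j < 17) (hq : q < 4) (hr : r < 4) :
    cont i j q r = true ∨ bz i j q r = 0 := by
  have h0 := bAll_chk
  unfold bAll at h0
  have h1 := allB_all _ _ (allB_all _ _ (allB_all _ _ (allB_all _ _ h0 i hi) j hj) q hq) r hr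
  unfold bOK at h1
  rw [Bool.or_eq_true, decide_eq_true_eq] at h1
  rw [bz_eq]; exact h1

theorem tr_chk : bzE 8 8 0 0 + bzE 8 8 1 1 + bzE 8 8 2 2 + bzE 8 8 3 3 = 4 * 99999991 := by
  decide +kernel

def rowTot (i : ℕ) : ℤ := Nat.rec (motive := fun _ => ℤ) 0 (fun j acc => acc + av i j 0 0) 17

def tot : ℤ := Nat.rec (motive := fun _ => ℤ) 0 (fun i acc => acc + rowTot i) 17

theorem tot_chk : tot = 4101597595 := by decide +kernel

lemma zrec_sum (f : ℕ → ℤ) (n : ℕ) :
    Nat.rec (motive := fun _ => ℤ) 0 (fun k acc => acc + f k) n = ∑ k ∈ range n, f k := by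
  induction n with
  | zero => simp
  | succ n ih => rw [sum_range_succ, ← ih]

lemma tot_eq : ∑ i ∈ range 17, ∑ j ∈ range 17, av i j 0 0 = 4101597595 := by
  rw [← tot_chk]
  unfold tot
  rw [zrec_sum]
  apply sum_congr rfl; intro i _
  unfold rowTot
  rw [zrec_sum]

def idxAll : Bool := allB (fun a => allB (fun b => allB (fun al => Nat.blt (idx a b al) 118) 3) 9) 9

theorem idxAll_chk : idxAll = true := by decide +kernel

lemma idx_lt (a b al : ℕ) (ha : a < 9) (hb : b < 9) (hal : al < 3) : idx a b al < 118 := by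
  have h0 := idxAll_chk
  unfold idxAll at h0
  have h1 := allB_all _ _ (allB_all _ _ (allB_all _ _ h0 a ha) b hb) al hal
  exact Nat.le_of_ble_eq_true h1

end Pool.Agent.H10.TU
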