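import Pool.Agent.H10.TU.Base

set_option autoImplicit false

open MeasureTheory Set FourierTransform
open scoped ENNReal ComplexConjugate

namespace Pool.Agent.H10.TU

/-- Indicator of the unit interval. -/
noncomputable def eU (_ : Unit) : ℝ → ℝ := (Ioo (0 : ℝ) 1).indicator (fun _ => 1)

lemma eU_meas (p : Unit) : Measurable (eU p) := measurable_const.indicator measurableSet_Ioo

lemma eU_integrable (p : Unit) : Integrable (eU p) := by
  unfold eU
  rw [integrable_indicator_iff measurableSet_Ioo]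
  exact integrableOn_const (by simp)

lemma eU_le (p : Unit) (y : ℝ) : |eU p y| ≤ 1 := by
  unfold eU
  by_cases h : y ∈ Ioo (0 : ℝ) 1 <;> simp [h]

lemma eU_integral (p : Unit) : ∫ y, eU p y = 1 := by
  unfold eU
  rw [integral_indicator measurableSet_Ioo]
  simp

lemma eU_c1 (p : Unit) : Integrable (fun x => (eU p x : ℂ)) := (eU_integrable p).ofReal

lemma eU_c2 (p : Unit) : MemLp (fun x => (eU p x : ℂ)) 2 := by
  rw [memLp_two_iff_integrable_sq_norm (eU_c1 p).aestronglyMeasurable]
  refine ((eU_c1 p).norm).mono ?_ ?_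
  · exact ((eU_c1 p).aestronglyMeasurable.norm.pow 2)
  · filter_upwards with x
    have h1 := eU_le p x
    have h0 : 0 ≤ |eU p x| := abs_nonneg _
    rw [Complex.norm_real, norm_pow, norm_norm, Real.norm_eq_abs, sq]
    nlinarith

/-- The squared sinc function. -/
noncomputable def FU : ℝ → ℝ := Fr eU (fun _ _ => 1)

lemma FU_adm : FU ∈ Adm (Icc (-1 : ℝ) 1) := by
  refine ⟨Fr_cont eU_c1, Fr_integrable eU_c1 eU_c2, fun x => Fr_nonneg ?_ x, ?_, ?_⟩
  · intro z
    simp only [Finset.univ_unique, Finset.sum_singleton, Complex.ofReal_one, one_mul]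
    rw [Complex.mul_conj, Complex.ofReal_re]
    exact Complex.normSq_nonneg _
  · unfold FU
    rw [Fr_zero]
    simp [eU_integral]
  · refine closure_minimal ?_ isClosed_Icc
    intro x hx
    rw [Function.mem_support] at hx
    by_contra hn
    apply hx
    unfold FU
    rw [fourier_Fr (fun _ _ => rfl) eU_c1 eU_c2]
    simp only [Finset.univ_unique, Finset.sum_singleton, one_mul]
    rw [Complex.ofReal_eq_zero]
    apply integral_eq_zero_of_ae
    filter_upwards with y
    unfold eU
    by_cases h1 : y - x ∈ Ioo (0 : ℝ) 1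
    · by_cases h2 : y ∈ Ioo (0 : ℝ) 1
      · exfalso
        apply hn
        exact ⟨by linarith [h1.2, h2.1], by linarith [h1.1, h2.2]⟩
      · simp [h2]
    · simp [h1]

lemma FU_integral : ∫ x, FU x = 1 := by
  unfold FU
  rw [integral_Fr (fun _ _ => rfl) eU_c1 eU_c2]
  simp only [Finset.univ_unique, Finset.sum_singleton, one_mul]
  rw [← eU_integral ()]
  congr 1
  funext y
  unfold eU
  by_cases h : y ∈ Ioo (0 : ℝ) 1 <;> simp [h]

lemma good_R : Good ℝ 2 := by
  refine ⟨Icc (-1) 1, ⟨isCompact_Icc, convex_Icc _ _, ?_, ?_⟩, FU, FU_adm, ?_⟩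
  · rintro x ⟨h1, h2⟩; exact ⟨by linarith, by linarith⟩
  · rw [interior_Icc]; exact ⟨0, by norm_num, by norm_num⟩
  · rw [FU_integral]
    simp [Measure.real]
    norm_num

section Dim

variable {V : Type*} [NormedAddCommGroup V] [InnerProductSpace ℝ V] [FiniteDimensional ℝ V]
  [MeasurableSpace V] [BorelSpace V]

lemma Good.euclid {c : ℝ} (h : Good V c) {n : ℕ} (hn : Module.finrank ℝ V = n) :
    Good (EuclideanSpace ℝ (Fin n)) c :=
  h.transport ((stdOrthonormalBasis ℝ V).reindex (finCongr hn)).repr.symm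

end Dim

lemma good_step {m k : ℕ} {c d : ℝ} (h1 : Good (EuclideanSpace ℝ (Fin m)) c)
    (h2 : Good (EuclideanSpace ℝ (Fin k)) d) : Good (EuclideanSpace ℝ (Fin (m + k))) (c * d) := by
  refine (h1.prod h2).euclid ?_
  rw [(WithLp.prodContinuousLinearEquiv 2 ℝ (EuclideanSpace ℝ (Fin m))
    (EuclideanSpace ℝ (Fin k))).toLinearEquiv.finrank_eq, Module.finrank_prod]
  simp

/-- The factor gained in every pair of dimensions. -/
noncomputable def gain : ℝ := 41 * (99999991 / 4101597595)

lemma good_even (k : ℕ) : Good (EuclideanSpace ℝ (Fin (2 * (k + 1)))) ((4 * gain) ^ (k + 1)) := by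
  induction k with
  | zero => simpa using! good_E2
  | succ k ih =>
    have h := good_step ih good_E2
    have e : 2 * (k + 1) + 2 = 2 * (k + 1 + 1) := by ring
    rw [e] at h
    rw [pow_succ]
    exact h

lemma good_all (d : ℕ) (hd : 2 ≤ d) :
    Good (EuclideanSpace ℝ (Fin d)) (gain ^ (d / 2) * 2 ^ d) := by
  obtain ⟨k, hk | hk⟩ : ∃ k, d = 2 * (k + 1) ∨ d = 2 * (k + 1) + 1 := by
    rcases Nat.even_or_odd' d with ⟨m, h | h⟩
    · exact ⟨m - 1, Or.inl (by omega)⟩
    · exact ⟨m - 1, Or.inr (by omega)⟩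
  · subst hk
    have h := good_even k
    have e1 : 2 * (k + 1) / 2 = k + 1 := by omega
    rw [e1]
    have e2 : (4 * gain) ^ (k + 1) = gain ^ (k + 1) * 2 ^ (2 * (k + 1)) := by
      rw [mul_pow, pow_mul]; norm_num; ring
    rwa [← e2]
  · subst hk
    have hR : Good (EuclideanSpace ℝ (Fin 1)) 2 := good_R.euclid (by simp)
    have h := good_step (good_even k) hR
    have e1 : (2 * (k + 1) + 1) / 2 = k + 1 := by omega
    rw [e1]
    have e2 : (4 * gain) ^ (k + 1) * 2 = gain ^ (k + 1) * 2 ^ (2 * (k + 1) + 1) := by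
      rw [mul_pow, pow_succ 2 (2 * (k + 1)), pow_mul]; norm_num; ring
    rwa [← e2]

end Pool.Agent.H10.TU
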