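import Mathlib

set_option autoImplicit false

open Finset
open scoped ComplexConjugate

namespace Pool.Agent.H10.TU

lemma re_mul_conj_le (a b : ℂ) : |(a * conj b).re| ≤ ‖a‖ * ‖b‖ := by
  calc |(a * conj b).re| ≤ ‖a * conj b‖ := Complex.abs_re_le_norm _
    _ = ‖a‖ * ‖b‖ := by rw [norm_mul, Complex.norm_conj]

/-- A real symmetric matrix `X` such that `c X - L Lᵀ` is diagonally dominant gives a nonnegative
hermitian form. -/
theorem psd (n : ℕ) (X L : ℕ → ℕ → ℝ) (c ρ : ℝ) (hc : 0 < c) (hρ : 0 ≤ ρ)
    (hsym : ∀ i j, X i j = X j i)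
    (hoff : ∀ i < n, ∀ j < i, |c * X i j - ∑ k ∈ range n, L i k * L j k| ≤ ρ)
    (hd : ∀ i < n, n * ρ ≤ c * X i i - ∑ k ∈ range n, L i k * L i k) (z : ℕ → ℂ) :
    0 ≤ (∑ i ∈ range n, ∑ j ∈ range n, (X i j : ℂ) * (z i * conj (z j))).re := by
  set S : ℕ → ℕ → ℝ := fun i j => ∑ k ∈ range n, L i k * L j k with hS
  have hSs : ∀ i j, S i j = S j i := by
    intro i j; simp only [hS]; apply sum_congr rfl; intro k _; ring
  have hre : (∑ i ∈ range n, ∑ j ∈ range n, (X i j : ℂ) * (z i * conj (z j))).re =
      ∑ i ∈ range n, ∑ j ∈ range n, X i j * (z i * conj (z j)).re := by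
    rw [Complex.re_sum]
    apply sum_congr rfl; intro i _
    rw [Complex.re_sum]
    apply sum_congr rfl; intro j _
    rw [Complex.re_ofReal_mul]
  rw [hre]
  -- the Gram part
  have hG : 0 ≤ ∑ i ∈ range n, ∑ j ∈ range n, S i j * (z i * conj (z j)).re := by
    have e : ∑ i ∈ range n, ∑ j ∈ range n, S i j * (z i * conj (z j)).re =
        ∑ k ∈ range n, Complex.normSq (∑ i ∈ range n, (L i k : ℂ) * z i) := by
      have e1 : ∀ k, Complex.normSq (∑ i ∈ range n, (L i k : ℂ) * z i) =
          ∑ i ∈ range n, ∑ j ∈ range n, L i k * L j k * (z i * conj (z j)).re := by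
        intro k
        have : ((Complex.normSq (∑ i ∈ range n, (L i k : ℂ) * z i) : ℝ) : ℂ) =
            ∑ i ∈ range n, ∑ j ∈ range n, ((L i k * L j k : ℝ) : ℂ) * (z i * conj (z j)) := by
          rw [← Complex.mul_conj, map_sum, sum_mul_sum]
          apply sum_congr rfl; intro i _
          apply sum_congr rfl; intro j _
          rw [map_mul, Complex.conj_ofReal]
          push_cast; ring
        have h2 := congrArg Complex.re this
        rw [Complex.ofReal_re] at h2
        rw [h2, Complex.re_sum]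
        apply sum_congr rfl; intro i _
        rw [Complex.re_sum]
        apply sum_congr rfl; intro j _
        rw [Complex.re_ofReal_mul]
      simp only [e1]
      symm
      rw [sum_comm]
      apply sum_congr rfl; intro i _
      rw [sum_comm]
      apply sum_congr rfl; intro j _
      rw [← sum_mul]
    rw [e]
    exact sum_nonneg fun k _ => Complex.normSq_nonneg _
  -- the remainder
  have hR : 0 ≤ ∑ i ∈ range n, ∑ j ∈ range n, (c * X i j - S i j) * (z i * conj (z j)).re := by
    have h1 : ∀ i ∈ range n, ∀ j ∈ range n,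
        (if i = j then (n : ℝ) * ρ * ‖z i‖ ^ 2 else 0) - ρ * (‖z i‖ * ‖z j‖) ≤
          (c * X i j - S i j) * (z i * conj (z j)).re := by
      intro i hi j hj
      rw [mem_range] at hi hj
      by_cases hij : i = j
      · subst hij
        rw [if_pos rfl]
        have h2 : (z i * conj (z i)).re = ‖z i‖ ^ 2 := by
          rw [Complex.mul_conj, Complex.ofReal_re, Complex.normSq_eq_norm_sq]
        rw [h2]
        have h3 := hd i hi
        have h4 : 0 ≤ ‖z i‖ ^ 2 := sq_nonneg _
        have h5 := mul_le_mul_of_nonneg_right h3 h4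
        have h6 : 0 ≤ ρ * (‖z i‖ * ‖z i‖) := by positivity
        simp only [hS]
        linarith
      · rw [if_neg hij, zero_sub]
        have hb : |c * X i j - S i j| ≤ ρ := by
          rcases Nat.lt_or_gt_of_ne hij with h | h
          · rw [hsym i j, hSs i j]; exact hoff j hj i h
          · exact hoff i hi j h
        have h3 := re_mul_conj_le (z i) (z j)
        have h4 : |(c * X i j - S i j) * (z i * conj (z j)).re| ≤ ρ * (‖z i‖ * ‖z j‖) := by
          rw [abs_mul]
          exact mul_le_mul hb h3 (abs_nonneg _) hρ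
        linarith [neg_abs_le ((c * X i j - S i j) * (z i * conj (z j)).re)]
    refine le_trans ?_ (sum_le_sum fun i hi => sum_le_sum fun j hj => h1 i hi j hj)
    have h2 : ∑ i ∈ range n, ∑ j ∈ range n,
        ((if i = j then (n : ℝ) * ρ * ‖z i‖ ^ 2 else 0) - ρ * (‖z i‖ * ‖z j‖)) =
        n * ρ * ∑ i ∈ range n, ‖z i‖ ^ 2 - ρ * (∑ i ∈ range n, ‖z i‖) ^ 2 := by
      simp only [sum_sub_distrib]
      congr 1
      · rw [mul_sum]
        apply sum_congr rfl; intro i hi
        rw [sum_ite_eq]; simp [hi]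
      · rw [sq, sum_mul_sum, mul_sum]
        apply sum_congr rfl; intro i _
        rw [mul_sum]
    rw [h2]
    have h3 : (∑ i ∈ range n, ‖z i‖) ^ 2 ≤ n * ∑ i ∈ range n, ‖z i‖ ^ 2 := by
      have := sq_sum_le_card_mul_sum_sq (s := range n) (f := fun i => ‖z i‖)
      rwa [card_range] at this
    nlinarith [mul_le_mul_of_nonneg_left h3 hρ]
  have hsum : c * ∑ i ∈ range n, ∑ j ∈ range n, X i j * (z i * conj (z j)).re =
      (∑ i ∈ range n, ∑ j ∈ range n, S i j * (z i * conj (z j)).re) +
      ∑ i ∈ range n, ∑ j ∈ range n, (c * X i j - S i j) * (z i * conj (z j)).re := by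
    rw [mul_sum, ← sum_add_distrib]
    apply sum_congr rfl; intro i _
    rw [mul_sum, ← sum_add_distrib]
    apply sum_congr rfl; intro j _
    ring
  have : 0 ≤ c * ∑ i ∈ range n, ∑ j ∈ range n, X i j * (z i * conj (z j)).re := by
    rw [hsum]; exact add_nonneg hG hR
  exact nonneg_of_mul_nonneg_right this hc

end Pool.Agent.H10.TU
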