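import Pool.Agent.H10.TU.Tri

set_option autoImplicit false

open MeasureTheory Set
open scoped ENNReal

namespace Pool.Agent.H10.TU

/-- A point of the plane. -/
noncomputable def pt (a b : ℝ) : E2 := !₂[a, b]

@[simp] lemma pt_zero (a b : ℝ) : (pt a b) 0 = a := rfl
@[simp] lemma pt_one (a b : ℝ) : (pt a b) 1 = b := rfl

/-- The step function in the cell with lower left corner `(a, b)`, of kind `al`. -/
noncomputable def ef (a b al : ℕ) (x : E2) : ℝ :=
  ∑ q ∈ Finset.range 4, sg al q * ind q (x - pt a b)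

/-- Correlation of two quarters. -/
noncomputable def mm (q r : ℕ) (z : E2) : ℝ := ∫ y, ind q (y - z) * ind r y

lemma ind_prod_integrable (q r : ℕ) (u v : E2) :
    Integrable (fun y => ind q (y - u) * ind r (y - v)) := by
  have h := (ind_integrable r).comp_sub_right v
  refine h.mono ?_ ?_
  · exact (((ind_meas q).comp (measurable_id.sub_const u)).mul
      ((ind_meas r).comp (measurable_id.sub_const v))).aestronglyMeasurable
  · filter_upwards with y
    rw [norm_mul]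
    calc ‖ind q (y - u)‖ * ‖ind r (y - v)‖ ≤ 1 * ‖ind r (y - v)‖ :=
          mul_le_mul_of_nonneg_right (ind_le _ _) (norm_nonneg _)
      _ = _ := one_mul _

lemma ind_shift (q r : ℕ) (x u v : E2) :
    ∫ y, ind q (y - x - u) * ind r (y - v) = mm q r (x + u - v) := by
  rw [← integral_add_right_eq_self (fun y => ind q (y - x - u) * ind r (y - v)) v]
  unfold mm
  congr 1
  funext y
  congr 2
  · abel
  · abel

lemma ef_corr (a b al a' b' be : ℕ) (x : E2) :
    ∫ y, ef a b al (y - x) * ef a' b' be y =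
      ∑ q ∈ Finset.range 4, ∑ r ∈ Finset.range 4, sg al q * sg be r *
        mm q r (x + pt a b - pt a' b') := by
  have e1 : ∀ y : E2, ef a b al (y - x) * ef a' b' be y =
      ∑ q ∈ Finset.range 4, ∑ r ∈ Finset.range 4, (sg al q * sg be r) *
        (ind q (y - x - pt a b) * ind r (y - pt a' b')) := by
    intro y
    unfold ef
    rw [Finset.sum_mul_sum]
    apply Finset.sum_congr rfl; intro q _
    apply Finset.sum_congr rfl; intro r _
    ring
  simp only [e1]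
  have hi : ∀ q r : ℕ, Integrable (fun y => (sg al q * sg be r) *
        (ind q (y - x - pt a b) * ind r (y - pt a' b'))) := by
    intro q r
    have := ind_prod_integrable q r (x + pt a b) (pt a' b')
    simp only [← sub_sub] at this
    exact this.const_mul _
  rw [integral_finsetSum _ (fun q _ => integrable_finsetSum _ (fun r _ => hi q r))]
  apply Finset.sum_congr rfl; intro q _
  rw [integral_finsetSum _ (fun r _ => hi q r)]
  apply Finset.sum_congr rfl; intro r _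
  rw [integral_const_mul, ind_shift]

lemma ef_integral (a b al : ℕ) : ∫ y, ef a b al y = ∑ q ∈ Finset.range 4, sg al q * (1 / 4) := by
  unfold ef
  rw [integral_finsetSum _ (fun q _ => ((ind_integrable q).comp_sub_right _).const_mul _)]
  apply Finset.sum_congr rfl; intro q _
  rw [integral_const_mul, integral_sub_right_eq_self (ind q), ind_integral]

lemma ef_meas (a b al : ℕ) : Measurable (ef a b al) := by
  unfold ef
  apply Finset.measurable_fun_sum
  intro q _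
  exact ((ind_meas q).comp (measurable_id.sub_const _)).const_mul _

lemma ef_integrable (a b al : ℕ) : Integrable (ef a b al) := by
  unfold ef
  apply integrable_finsetSum
  intro q _
  exact ((ind_integrable q).comp_sub_right _).const_mul _

lemma ef_bdd (a b al : ℕ) : ∃ C : ℝ, ∀ y, ‖ef a b al y‖ ≤ C := by
  refine ⟨∑ q ∈ Finset.range 4, |sg al q|, fun y => ?_⟩
  unfold ef
  refine (norm_sum_le _ _).trans ?_
  apply Finset.sum_le_sum
  intro q _
  rw [norm_mul]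
  calc ‖sg al q‖ * ‖ind q (y - pt a b)‖ ≤ ‖sg al q‖ * 1 :=
        mul_le_mul_of_nonneg_left (ind_le _ _) (norm_nonneg _)
    _ = |sg al q| := by rw [mul_one]; rfl

lemma ef_c1 (a b al : ℕ) : Integrable (fun x => (ef a b al x : ℂ)) := (ef_integrable a b al).ofReal

lemma ef_c2 (a b al : ℕ) : MemLp (fun x => (ef a b al x : ℂ)) 2 := by
  obtain ⟨C, hC⟩ := ef_bdd a b al
  rw [memLp_two_iff_integrable_sq_norm (ef_c1 a b al).aestronglyMeasurable]
  refine (((ef_c1 a b al).norm).const_mul C).mono ?_ ?_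
  · exact ((ef_c1 a b al).aestronglyMeasurable.norm.pow 2)
  · filter_upwards with x
    have h1 := hC x
    have h0 : 0 ≤ ‖ef a b al x‖ := norm_nonneg _
    rw [Complex.norm_real, norm_pow, norm_norm, norm_mul, norm_norm]
    have hC0 : 0 ≤ C := h0.trans h1
    rw [Real.norm_of_nonneg hC0, sq]
    exact mul_le_mul_of_nonneg_right h1 h0

lemma mm_eq_zero {q r : ℕ} {z : E2} (h : ∀ y, y - z ∈ T q → y ∈ T r → False) : mm q r z = 0 := by
  unfold mm
  rw [integral_eq_zero_of_ae]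
  filter_upwards with y
  unfold ind
  by_cases h1 : y - z ∈ T q
  · by_cases h2 : y ∈ T r
    · exact (h y h1 h2).elim
    · simp [h2]
  · simp [h1]

lemma mm_self (q : ℕ) : mm q q 0 = 1 / 4 := by
  unfold mm
  rw [← ind_integral q]
  congr 1
  funext y
  rw [sub_zero]
  unfold ind
  by_cases h : y ∈ T q <;> simp [h]

/-- Doubled bounds of the four functionals on the quarters. -/
def xlo : ℕ → ℤ | 0 => 1 | _ => 0
def xhi : ℕ → ℤ | 2 => 1 | _ => 2
def ylo : ℕ → ℤ | 1 => 1 | _ => 0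
def yhi : ℕ → ℤ | 0 => 2 | 1 => 2 | 2 => 2 | _ => 1
def slo : ℕ → ℤ | 0 => 2 | 1 => 2 | _ => 0
def shi : ℕ → ℤ | 0 => 4 | 1 => 4 | _ => 2
def dlo : ℕ → ℤ | 1 => -2 | 2 => -2 | _ => 0
def dhi : ℕ → ℤ | 1 => 0 | 2 => 0 | _ => 2

lemma T_bounds (q : ℕ) {y : E2} (hy : y ∈ T q) :
    (xlo q : ℝ) < 2 * y 0 ∧ 2 * y 0 < xhi q ∧ (ylo q : ℝ) < 2 * y 1 ∧ 2 * y 1 < yhi q ∧
    (slo q : ℝ) < 2 * (y 0 + y 1) ∧ 2 * (y 0 + y 1) < shi q ∧
    (dlo q : ℝ) < 2 * (y 0 - y 1) ∧ 2 * (y 0 - y 1) < dhi q := by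
  match q with
  | 0 =>
    obtain ⟨h1, h2, h3⟩ := hy
    simp only [xlo, xhi, ylo, yhi, slo, shi, dlo, dhi]
    push_cast
    refine ⟨?_, ?_, ?_, ?_, ?_, ?_, ?_, ?_⟩ <;> linarith
  | 1 =>
    obtain ⟨h1, h2, h3⟩ := hy
    simp only [xlo, xhi, ylo, yhi, slo, shi, dlo, dhi]
    push_cast
    refine ⟨?_, ?_, ?_, ?_, ?_, ?_, ?_, ?_⟩ <;> linarith
  | 2 =>
    obtain ⟨h1, h2, h3⟩ := hy
    simp only [xlo, xhi, ylo, yhi, slo, shi, dlo, dhi]
    push_cast
    refine ⟨?_, ?_, ?_, ?_, ?_, ?_, ?_, ?_⟩ <;> linarith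
  | n + 3 =>
    obtain ⟨h1, h2, h3⟩ := hy
    simp only [xlo, xhi, ylo, yhi, slo, shi, dlo, dhi]
    push_cast
    refine ⟨?_, ?_, ?_, ?_, ?_, ?_, ?_, ?_⟩ <;> linarith

/-- The octagon. -/
def Oct : Set E2 := {x | |x 0| ≤ 7 ∧ |x 1| ≤ 7 ∧ |x 0 + x 1| ≤ 10 ∧ |x 0 - x 1| ≤ 10}

/-- The correlation of the quarters `q` and `r` at offset `(i - 8, j - 8)` lives in the octagon. -/
def cont (i j q r : ℕ) : Bool :=
  decide (2 * ((i : ℤ) - 8) + xhi q - xlo r ≤ 14) && decide (-14 ≤ 2 * ((i : ℤ) - 8) + xlo q - xhi r) &&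
  (decide (2 * ((j : ℤ) - 8) + yhi q - ylo r ≤ 14) && decide (-14 ≤ 2 * ((j : ℤ) - 8) + ylo q - yhi r)) &&
  (decide (2 * ((i : ℤ) + j - 16) + shi q - slo r ≤ 20) &&
    decide (-20 ≤ 2 * ((i : ℤ) + j - 16) + slo q - shi r)) &&
  (decide (2 * ((i : ℤ) - j) + dhi q - dlo r ≤ 20) && decide (-20 ≤ 2 * ((i : ℤ) - j) + dlo q - dhi r))

lemma mm_out {i j q r : ℕ} (hc : cont i j q r = true) {x : E2} (hx : x ∉ Oct) :
    mm q r (x + pt ((i : ℝ) - 8) ((j : ℝ) - 8)) = 0 := by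
  apply mm_eq_zero
  intro y h1 h2
  apply hx
  obtain ⟨a1, a2, a3, a4, a5, a6, a7, a8⟩ := T_bounds q h1
  obtain ⟨b1, b2, b3, b4, b5, b6, b7, b8⟩ := T_bounds r h2
  simp only [PiLp.sub_apply, PiLp.add_apply, pt_zero, pt_one] at a1 a2 a3 a4 a5 a6 a7 a8
  simp only [cont, Bool.and_eq_true, decide_eq_true_eq] at hc
  obtain ⟨⟨⟨⟨c1, c2⟩, c3, c4⟩, c5, c6⟩, c7, c8⟩ := hc
  have c1' : 2 * ((i : ℝ) - 8) + xhi q - xlo r ≤ 14 := by exact_mod_cast c1
  have c2' : (-14 : ℝ) ≤ 2 * ((i : ℝ) - 8) + xlo q - xhi r := by exact_mod_cast c2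
  have c3' : 2 * ((j : ℝ) - 8) + yhi q - ylo r ≤ 14 := by exact_mod_cast c3
  have c4' : (-14 : ℝ) ≤ 2 * ((j : ℝ) - 8) + ylo q - yhi r := by exact_mod_cast c4
  have c5' : 2 * ((i : ℝ) + j - 16) + shi q - slo r ≤ 20 := by exact_mod_cast c5
  have c6' : (-20 : ℝ) ≤ 2 * ((i : ℝ) + j - 16) + slo q - shi r := by exact_mod_cast c6
  have c7' : 2 * ((i : ℝ) - j) + dhi q - dlo r ≤ 20 := by exact_mod_cast c7
  have c8' : (-20 : ℝ) ≤ 2 * ((i : ℝ) - j) + dlo q - dhi r := by exact_mod_cast c8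
  refine ⟨abs_le.2 ⟨?_, ?_⟩, abs_le.2 ⟨?_, ?_⟩, abs_le.2 ⟨?_, ?_⟩, abs_le.2 ⟨?_, ?_⟩⟩ <;> linarith

/-- At the origin only the coinciding quarters contribute. -/
lemma mm_origin {i j q r : ℕ} (hq : q < 4) (hr : r < 4) (h : ¬ (i = 8 ∧ j = 8 ∧ q = r)) :
    mm q r (pt ((i : ℝ) - 8) ((j : ℝ) - 8)) = 0 := by
  apply mm_eq_zero
  intro y h1 h2
  apply h
  obtain ⟨a1, a2, a3, a4, -⟩ := T_bounds q h1
  obtain ⟨b1, b2, b3, b4, -⟩ := T_bounds r h2
  simp only [PiLp.sub_apply, pt_zero, pt_one] at a1 a2 a3 a4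
  have X0 : ∀ q, (0 : ℝ) ≤ xlo q := by intro q; exact_mod_cast (by unfold xlo; split <;> norm_num)
  have X1 : ∀ q, (xhi q : ℝ) ≤ 2 := by intro q; exact_mod_cast (by unfold xhi; split <;> norm_num)
  have Y0 : ∀ q, (0 : ℝ) ≤ ylo q := by intro q; exact_mod_cast (by unfold ylo; split <;> norm_num)
  have Y1 : ∀ q, (yhi q : ℝ) ≤ 2 := by intro q; exact_mod_cast (by unfold yhi; split <;> norm_num)
  have i1 : (i : ℝ) < 9 := by linarith [X0 q, X1 r]
  have i2 : (7 : ℝ) < i := by linarith [X1 q, X0 r]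
  have j1 : (j : ℝ) < 9 := by linarith [Y0 q, Y1 r]
  have j2 : (7 : ℝ) < j := by linarith [Y1 q, Y0 r]
  have i1' : i < 9 := by exact_mod_cast i1
  have i2' : 7 < i := by exact_mod_cast i2
  have j1' : j < 9 := by exact_mod_cast j1
  have j2' : 7 < j := by exact_mod_cast j2
  have hi : i = 8 := by omega
  have hj : j = 8 := by omega
  refine ⟨hi, hj, ?_⟩
  subst hi hj
  have e : y - pt (((8 : ℕ) : ℝ) - 8) (((8 : ℕ) : ℝ) - 8) = y := by
    ext k; fin_cases k <;> simp [pt]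
  rw [e] at h1
  interval_cases q <;> interval_cases r <;>
    first
      | rfl
      | (exfalso
         obtain ⟨u1, u2, u3⟩ := h1
         obtain ⟨v1, v2, v3⟩ := h2
         linarith)

end Pool.Agent.H10.TU
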