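import Pool.Agent.H10.TU.Check
import Pool.Agent.H10.TU.Psd
import Pool.Agent.H10.TU.Step

set_option autoImplicit false

open Finset
open scoped ComplexConjugate

namespace Pool.Agent.H10.TU

/-! ### Recursion lemmas -/

lemma natrec_sum (a : ℕ) (f : ℕ → ℕ) (n : ℕ) :
    Nat.rec (motive := fun _ => ℕ) a (fun k acc => Nat.add acc (f k)) n =
      a + ∑ k ∈ range n, f k := by
  induction n with
  | zero => simp
  | succ n ih =>
    rw [sum_range_succ, ← add_assoc, ← ih]
    rfl

lemma boolrec_all (b : Bool) (f : ℕ → Bool) (n : ℕ)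
    (h : Nat.rec (motive := fun _ => Bool) b (fun k acc => and (f k) acc) n = true) :
    b = true ∧ ∀ k < n, f k = true := by
  induction n with
  | zero => exact ⟨h, by simp⟩
  | succ n ih =>
    have h' : (f n && (Nat.rec (motive := fun _ => Bool) b (fun k acc => and (f k) acc) n)) = true := h
    rw [Bool.and_eq_true] at h'
    obtain ⟨h1, h2⟩ := ih h'.2
    refine ⟨h1, fun k hk => ?_⟩
    rcases Nat.lt_succ_iff_lt_or_eq.1 hk with h | h
    · exact h2 k h
    · rw [h]; exact h'.1

lemma allB_all (f : ℕ → Bool) (n : ℕ) (h : allB f n = true) : ∀ k < n, f k = true :=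
  (boolrec_all true f n h).2

/-! ### The Gram matrix -/

/-- Entries of the Gram matrix. -/
def xv (i j : ℕ) : ℤ := (xs i j : ℤ) - 8388608

/-- Entries of the factor. -/
def lv (i k : ℕ) : ℤ := if k ≤ i then (ld i k : ℤ) - 8388608 else 0

lemma xs_symm (i j : ℕ) : xs i j = xs j i := by
  unfold xs
  rcases lt_trichotomy i j with h | h | h
  · have h1 : Nat.ble j i = false := by
      rw [Bool.eq_false_iff]; intro h2; exact absurd (Nat.le_of_ble_eq_true h2) (by omega)
    have h2 : Nat.ble i j = true := Nat.ble_eq_true_of_le h.le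
    rw [h1, h2]; rfl
  · rw [h]
  · have h1 : Nat.ble i j = false := by
      rw [Bool.eq_false_iff]; intro h2; exact absurd (Nat.le_of_ble_eq_true h2) (by omega)
    have h2 : Nat.ble j i = true := Nat.ble_eq_true_of_le h.le
    rw [h1, h2]; rfl

lemma xv_symm (i j : ℕ) : xv i j = xv j i := by unfold xv; rw [xs_symm]

lemma xs_of_le {i j : ℕ} (h : j ≤ i) : xs i j = xd i j := by
  unfold xs
  rw [Nat.ble_eq_true_of_le h]; rfl

lemma Pij_eq (i j : ℕ) : Pij i j = 4194304 * xd i j + ∑ k ∈ range (j + 1), 8388608 * (ld i k + ld j k) :=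
  natrec_sum (Nat.mul 4194304 (xd i j)) (fun k => Nat.mul 8388608 (Nat.add (ld i k) (ld j k)))
    (Nat.succ j)

lemma Qij_eq (i j : ℕ) : Qij i j = 4194304 * 8388608 +
    ∑ k ∈ range (j + 1), (ld i k * ld j k + 70368744177664) :=
  natrec_sum (Nat.mul 4194304 8388608)
    (fun k => Nat.add (Nat.mul (ld i k) (ld j k)) 70368744177664) (Nat.succ j)

lemma lsum (i j : ℕ) (hj : j ≤ i) (hi : i < 117) :
    ∑ k ∈ range 117, lv i k * lv j k =
      ∑ k ∈ range (j + 1), ((ld i k : ℤ) - 8388608) * ((ld j k : ℤ) - 8388608) := by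
  rw [← sum_subset (range_mono (show j + 1 ≤ 117 by omega))]
  · apply sum_congr rfl; intro k hk
    rw [mem_range] at hk
    unfold lv
    rw [if_pos (by omega), if_pos (by omega)]
  · intro k _ hk
    rw [mem_range, not_lt] at hk
    have : lv j k = 0 := by unfold lv; rw [if_neg (by omega)]
    rw [this, mul_zero]

lemma PQ (i j : ℕ) (hj : j ≤ i) (hi : i < 117) :
    4194304 * xv i j - ∑ k ∈ range 117, lv i k * lv j k = (Pij i j : ℤ) - (Qij i j : ℤ) := by
  rw [lsum i j hj hi, Pij_eq, Qij_eq, xv, xs_of_le hj]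
  push_cast
  have : ∑ k ∈ range (j + 1), ((ld i k : ℤ) - 8388608) * ((ld j k : ℤ) - 8388608) =
      ∑ k ∈ range (j + 1), ((ld i k : ℤ) * (ld j k) + 70368744177664) -
      ∑ k ∈ range (j + 1), (8388608 : ℤ) * ((ld i k : ℤ) + ld j k) := by
    rw [← sum_sub_distrib]
    apply sum_congr rfl; intro k _; ring
  rw [this]
  ring

lemma rows (i : ℕ) (hi : i < 117) :
    117 * 3759634 ≤ 4194304 * xv i i - ∑ k ∈ range 117, lv i k * lv i k ∧
    ∀ j < i, |4194304 * xv i j - ∑ k ∈ range 117, lv i k * lv j k| ≤ 3759634 := by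
  have h := (boolrec_all true rowOK 117 allOK_chk).2 i hi
  obtain ⟨h1, h2⟩ := boolrec_all (Nat.ble (Nat.add (Qij i i) 443636812) (Pij i i))
    (fun j => offOK i j) i h
  constructor
  · rw [PQ i i le_rfl hi]
    have h3 : Qij i i + 443636812 ≤ Pij i i := Nat.le_of_ble_eq_true h1
    have h4 : (Qij i i : ℤ) + 443636812 ≤ Pij i i := by exact_mod_cast h3
    linarith
  · intro j hj
    rw [PQ i j hj.le hi]
    have h3 := h2 j hj
    unfold offOK at h3
    rw [Bool.and_eq_true] at h3
    have h4 : Pij i j ≤ Qij i j + 3759634 := Nat.le_of_ble_eq_true h3.1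
    have h5 : Qij i j ≤ Pij i j + 3759634 := Nat.le_of_ble_eq_true h3.2
    have h4' : (Pij i j : ℤ) ≤ Qij i j + 3759634 := by exact_mod_cast h4
    have h5' : (Qij i j : ℤ) ≤ Pij i j + 3759634 := by exact_mod_cast h5
    rw [abs_le]; constructor <;> linarith

lemma psd117 (z : ℕ → ℂ) :
    0 ≤ (∑ i ∈ range 117, ∑ j ∈ range 117, ((xv i j : ℝ) : ℂ) * (z i * conj (z j))).re := by
  refine psd 117 (fun i j => (xv i j : ℝ)) (fun i k => (lv i k : ℝ)) 4194304 3759634
    (by norm_num) (by norm_num) ?_ ?_ ?_ z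
  · intro i j; rw [xv_symm]
  · intro i hi j hj
    have := (rows i hi).2 j hj
    have h2 : ((|4194304 * xv i j - ∑ k ∈ range 117, lv i k * lv j k| : ℤ) : ℝ) ≤ 3759634 := by
      exact_mod_cast this
    push_cast at h2
    exact h2
  · intro i hi
    have := (rows i hi).1
    have h2 : ((117 * 3759634 : ℤ) : ℝ) ≤ ((4194304 * xv i i - ∑ k ∈ range 117, lv i k * lv i k : ℤ) : ℝ) := by
      exact_mod_cast this
    push_cast at h2 ⊢
    linarith

lemma xv_zero (j : ℕ) (hj : j < 118) : xv 117 j = 0 := by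
  have h := (boolrec_all true (fun j => Nat.beq (xs 117 j) 8388608) 118 zrow_chk).2 j hj
  have h2 : xs 117 j = 8388608 := Nat.eq_of_beq_eq_true h
  unfold xv; rw [h2]; norm_num

lemma psd118 (z : ℕ → ℂ) :
    0 ≤ (∑ i ∈ range 118, ∑ j ∈ range 118, ((xv i j : ℝ) : ℂ) * (z i * conj (z j))).re := by
  have e : ∑ i ∈ range 118, ∑ j ∈ range 118, ((xv i j : ℝ) : ℂ) * (z i * conj (z j)) =
      ∑ i ∈ range 117, ∑ j ∈ range 117, ((xv i j : ℝ) : ℂ) * (z i * conj (z j)) := by
    rw [sum_range_succ]
    have h0 : ∑ j ∈ range 118, ((xv 117 j : ℝ) : ℂ) * (z 117 * conj (z j)) = 0 := by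
      apply sum_eq_zero; intro j hj
      rw [xv_zero j (mem_range.1 hj)]; simp
    rw [h0, add_zero]
    apply sum_congr rfl; intro i hi
    rw [sum_range_succ, xv_symm i 117, xv_zero i (by rw [mem_range] at hi; omega)]
    simp
  rw [e]; exact psd117 z

/-! ### Class sums -/

/-- Class sums. -/
def av (i j al be : ℕ) : ℤ := (Ad i j (3 * al + be) : ℤ) - 2147483648

lemma cls (i j al be : ℕ) (hi : i < 17) (hj : j < 17) (hal : al < 3) (hbe : be < 3) :
    (∑ a ∈ range 9, if vld i a = true then (∑ b ∈ range 9, if vld j b = true then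
      xv (idx a b al) (idx (a + 8 - i) (b + 8 - j) be) else 0) else 0) = av i j al be := by
  have h0 := clsAll_chk
  unfold clsAll at h0
  have h1 := allB_all _ _ (allB_all _ _ (allB_all _ _ (allB_all _ _ h0 i hi) j hj) al hal) be hbe
  have h2 : S1 i j al be + 2147483648 = Ad i j (3 * al + be) + S2 i j := Nat.eq_of_beq_eq_true h1
  have e1 : S1 i j al be = ∑ a ∈ range 9, cond (vld i a) (∑ b ∈ range 9, cond (vld j b)
      (xs (idx a b al) (idx (a + 8 - i) (b + 8 - j) be)) 0) 0 := by
    have := natrec_sum 0 (fun a => cond (vld i a) (S1in i j al be a) 0) 9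
    rw [zero_add] at this
    refine this.trans ?_
    apply sum_congr rfl; intro a _
    have h3 := natrec_sum 0 (fun b => cond (vld j b)
      (xs (idx a b al) (idx (Nat.sub (Nat.add a 8) i) (Nat.sub (Nat.add b 8) j) be)) 0) 9
    rw [zero_add] at h3
    exact congrArg (fun t => cond (vld i a) t 0) h3
  have e2 : S2 i j = ∑ a ∈ range 9, cond (vld i a) (∑ b ∈ range 9, cond (vld j b) 8388608 0) 0 := by
    have := natrec_sum 0 (fun a => cond (vld i a) (S2in j) 0) 9
    rw [zero_add] at this
    refine this.trans ?_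
    apply sum_congr rfl; intro a _
    have h3 := natrec_sum 0 (fun b => cond (vld j b) 8388608 0) 9
    rw [zero_add] at h3
    exact congrArg (fun t => cond (vld i a) t 0) h3
  have e3 : (∑ a ∈ range 9, if vld i a = true then (∑ b ∈ range 9, if vld j b = true then
      xv (idx a b al) (idx (a + 8 - i) (b + 8 - j) be) else 0) else 0) = (S1 i j al be : ℤ) - S2 i j := by
    rw [e1, e2]
    push_cast
    rw [← sum_sub_distrib]
    apply sum_congr rfl; intro a _
    by_cases ha : vld i a = true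
    · rw [if_pos ha, ha]
      simp only [cond_true]
      push_cast
      rw [← sum_sub_distrib]
      apply sum_congr rfl; intro b _
      by_cases hb : vld j b = true
      · rw [if_pos hb, hb]
        simp only [cond_true]
        rfl
      · rw [if_neg hb]
        rw [Bool.not_eq_true] at hb
        rw [hb]; simp
    · rw [if_neg ha]
      rw [Bool.not_eq_true] at ha
      rw [ha]; simp
  rw [e3]
  have h3 : (S1 i j al be : ℤ) + 2147483648 = Ad i j (3 * al + be) + S2 i j := by exact_mod_cast h2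
  unfold av
  linarith

end Pool.Agent.H10.TU
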