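import Mathlib

set_option autoImplicit false

open MeasureTheory Set
open scoped ENNReal

namespace Pool.Agent.H10.TU

/-- The Euclidean plane. -/
abbrev E2 := EuclideanSpace ℝ (Fin 2)

/-- The four open quarters of the unit square cut out by the diagonals. -/
def T : ℕ → Set E2
  | 0 => {x | x 1 < x 0 ∧ 1 < x 0 + x 1 ∧ x 0 < 1}
  | 1 => {x | x 0 < x 1 ∧ 1 < x 0 + x 1 ∧ x 1 < 1}
  | 2 => {x | x 0 < x 1 ∧ x 0 + x 1 < 1 ∧ 0 < x 0}
  | _ => {x | x 1 < x 0 ∧ x 0 + x 1 < 1 ∧ 0 < x 1}

/-- Signs of the three step functions on the quarters. -/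
def sg : ℕ → ℕ → ℝ
  | 0, _ => 1
  | 1, 0 => -1
  | 1, 1 => -1
  | 1, _ => 1
  | _, 0 => 1
  | _, 1 => -1
  | _, 2 => -1
  | _, _ => 1

/-- Coordinates as a pair. -/
noncomputable def toPair (x : E2) : ℝ × ℝ := (x 0, x 1)

lemma mp_toPair : MeasurePreserving toPair := by
  have h1 := PiLp.volume_preserving_ofLp (Fin 2)
  have h2 := volume_preserving_finTwoArrow ℝ
  exact h2.comp h1

def SW : Set (ℝ × ℝ) := {p | p.1 < p.2 ∧ p.1 + p.2 < 1 ∧ 0 < p.1}
def SE : Set (ℝ × ℝ) := {p | p.2 < p.1 ∧ 1 < p.1 + p.2 ∧ p.1 < 1}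

lemma SW_open : IsOpen SW := by
  unfold SW
  exact (isOpen_lt continuous_fst continuous_snd).inter
    ((isOpen_lt (continuous_fst.add continuous_snd) continuous_const).inter
      (isOpen_lt continuous_const continuous_fst))

lemma SE_open : IsOpen SE := by
  unfold SE
  exact (isOpen_lt continuous_snd continuous_fst).inter
    ((isOpen_lt continuous_const (continuous_fst.add continuous_snd)).inter
      (isOpen_lt continuous_fst continuous_const))

lemma int_W : ∫ x in (0 : ℝ)..(1 / 2), (1 - x - x) = 1 / 4 := by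
  have h : (fun x : ℝ => 1 - x - x) = fun x => 1 - 2 * x := by funext x; ring
  rw [h, intervalIntegral.integral_sub (Continuous.intervalIntegrable (by fun_prop) _ _)
    (Continuous.intervalIntegrable (by fun_prop) _ _), intervalIntegral.integral_const_mul]
  norm_num

lemma int_E : ∫ x in (1 / 2 : ℝ)..1, (x - (1 - x)) = 1 / 4 := by
  have h : (fun x : ℝ => x - (1 - x)) = fun x => 2 * x - 1 := by funext x; ring
  rw [h, intervalIntegral.integral_sub (Continuous.intervalIntegrable (by fun_prop) _ _)
    (Continuous.intervalIntegrable (by fun_prop) _ _), intervalIntegral.integral_const_mul]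
  norm_num

lemma vol_SW : volume SW = ENNReal.ofReal (1 / 4) := by
  have h : SW = regionBetween (fun x : ℝ => x) (fun x : ℝ => 1 - x) (Ioo (0 : ℝ) (1 / 2)) := by
    ext ⟨a, b⟩
    simp only [SW, mem_ofPred_eq, regionBetween, mem_Ioo]
    constructor
    · rintro ⟨h1, h2, h3⟩; exact ⟨⟨h3, by linarith⟩, h1, by linarith⟩
    · rintro ⟨⟨h1, h2⟩, h3, h4⟩; exact ⟨h3, by linarith, h1⟩
  rw [h, Measure.volume_eq_prod, volume_regionBetween_eq_integral]
  · congr 1
    rw [← integral_Ioc_eq_integral_Ioo, ← intervalIntegral.integral_of_le (by norm_num)]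
    simp only [Pi.sub_apply]
    exact int_W
  · exact (continuous_id.integrableOn_Icc).mono_set Ioo_subset_Icc_self
  · exact (Continuous.integrableOn_Icc (by fun_prop)).mono_set Ioo_subset_Icc_self
  · exact measurableSet_Ioo
  · intro x hx
    have := hx.2
    linarith [hx.2]

lemma vol_SE : volume SE = ENNReal.ofReal (1 / 4) := by
  have h : SE = regionBetween (fun x : ℝ => 1 - x) (fun x : ℝ => x) (Ioo (1 / 2 : ℝ) 1) := by
    ext ⟨a, b⟩
    simp only [SE, mem_ofPred_eq, regionBetween, mem_Ioo]
    constructor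
    · rintro ⟨h1, h2, h3⟩; exact ⟨⟨by linarith, h3⟩, by linarith, h1⟩
    · rintro ⟨⟨h1, h2⟩, h3, h4⟩; exact ⟨h4, by linarith, h2⟩
  rw [h, Measure.volume_eq_prod, volume_regionBetween_eq_integral]
  · congr 1
    rw [← integral_Ioc_eq_integral_Ioo, ← intervalIntegral.integral_of_le (by norm_num)]
    simp only [Pi.sub_apply]
    exact int_E
  · exact (Continuous.integrableOn_Icc (by fun_prop)).mono_set Ioo_subset_Icc_self
  · exact (Continuous.integrableOn_Icc (by fun_prop)).mono_set Ioo_subset_Icc_self
  · exact measurableSet_Ioo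
  · intro x hx
    linarith [hx.1]

lemma vol_T (q : ℕ) : volume (T q) = ENNReal.ofReal (1 / 4) := by
  have hsw : MeasurePreserving (Prod.swap : ℝ × ℝ → ℝ × ℝ) := Measure.measurePreserving_swap
  match q with
  | 0 =>
    have : T 0 = toPair ⁻¹' SE := rfl
    rw [this, mp_toPair.measure_preimage SE_open.measurableSet.nullMeasurableSet, vol_SE]
  | 1 =>
    have : T 1 = toPair ⁻¹' (Prod.swap ⁻¹' SE) := by
      ext x; simp only [T, SE, toPair, mem_ofPred_eq, mem_preimage, Prod.swap]
      rw [add_comm (x 0) (x 1)]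
    rw [this, mp_toPair.measure_preimage
      (hsw.measurable SE_open.measurableSet).nullMeasurableSet,
      hsw.measure_preimage SE_open.measurableSet.nullMeasurableSet, vol_SE]
  | 2 =>
    have : T 2 = toPair ⁻¹' SW := rfl
    rw [this, mp_toPair.measure_preimage SW_open.measurableSet.nullMeasurableSet, vol_SW]
  | n + 3 =>
    have : T (n + 3) = toPair ⁻¹' (Prod.swap ⁻¹' SW) := by
      ext x; simp only [T, SW, toPair, mem_ofPred_eq, mem_preimage, Prod.swap]
      rw [add_comm (x 0) (x 1)]
    rw [this, mp_toPair.measure_preimage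
      (hsw.measurable SW_open.measurableSet).nullMeasurableSet,
      hsw.measure_preimage SW_open.measurableSet.nullMeasurableSet, vol_SW]

lemma T_open (q : ℕ) : IsOpen (T q) := by
  have c0 : Continuous (fun x : E2 => x 0) := by fun_prop
  have c1 : Continuous (fun x : E2 => x 1) := by fun_prop
  have c2 : Continuous (fun x : E2 => x 0 + x 1) := by fun_prop
  match q with
  | 0 => exact (isOpen_lt c1 c0).inter ((isOpen_lt continuous_const c2).inter
      (isOpen_lt c0 continuous_const))
  | 1 => exact (isOpen_lt c0 c1).inter ((isOpen_lt continuous_const c2).inter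
      (isOpen_lt c1 continuous_const))
  | 2 => exact (isOpen_lt c0 c1).inter ((isOpen_lt c2 continuous_const).inter
      (isOpen_lt continuous_const c0))
  | n + 3 => exact (isOpen_lt c1 c0).inter ((isOpen_lt c2 continuous_const).inter
      (isOpen_lt continuous_const c1))

lemma vol_T_ne_top (q : ℕ) : volume (T q) ≠ ∞ := by rw [vol_T]; exact ENNReal.ofReal_ne_top

lemma volreal_T (q : ℕ) : volume.real (T q) = 1 / 4 := by
  rw [Measure.real, vol_T, ENNReal.toReal_ofReal (by norm_num)]

/-- Indicator of a quarter. -/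
noncomputable def ind (q : ℕ) : E2 → ℝ := (T q).indicator (fun _ => 1)

lemma ind_integral (q : ℕ) : ∫ y, ind q y = 1 / 4 := by
  unfold ind
  rw [integral_indicator (T_open q).measurableSet]
  simp [volreal_T]

lemma ind_integrable (q : ℕ) : Integrable (ind q) := by
  unfold ind
  rw [integrable_indicator_iff (T_open q).measurableSet]
  exact integrableOn_const (vol_T_ne_top q)

lemma ind_le (q : ℕ) (y : E2) : |ind q y| ≤ 1 := by
  unfold ind
  by_cases h : y ∈ T q <;> simp [h]

lemma ind_meas (q : ℕ) : Measurable (ind q) := measurable_const.indicator (T_open q).measurableSet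

end Pool.Agent.H10.TU
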