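import Pool.Agent.H10.TU.Step

set_option autoImplicit false

open MeasureTheory Set
open scoped ENNReal

namespace Pool.Agent.H10.TU

/-- The octagon in pair coordinates. -/
def OP : Set (ℝ × ℝ) := {p | |p.1| ≤ 7 ∧ |p.2| ≤ 7 ∧ |p.1 + p.2| ≤ 10 ∧ |p.1 - p.2| ≤ 10}

lemma OP_closed : IsClosed OP := by
  have c1 : Continuous (fun p : ℝ × ℝ => |p.1|) := by fun_prop
  have c2 : Continuous (fun p : ℝ × ℝ => |p.2|) := by fun_prop
  have c3 : Continuous (fun p : ℝ × ℝ => |p.1 + p.2|) := by fun_prop
  have c4 : Continuous (fun p : ℝ × ℝ => |p.1 - p.2|) := by fun_prop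
  exact (isClosed_le c1 continuous_const).inter ((isClosed_le c2 continuous_const).inter
    ((isClosed_le c3 continuous_const).inter (isClosed_le c4 continuous_const)))

noncomputable def hgt (x : ℝ) : ℝ := min 7 (10 - |x|)

lemma slice (x : ℝ) : volume (Prod.mk x ⁻¹' OP) =
    (Icc (-7 : ℝ) 7).indicator (fun x => ENNReal.ofReal (2 * hgt x)) x := by
  by_cases hx : x ∈ Icc (-7 : ℝ) 7
  · rw [indicator_of_mem hx]
    have e : Prod.mk x ⁻¹' OP = Icc (-hgt x) (hgt x) := by
      ext y
      simp only [OP, mem_preimage, mem_ofPred_eq, mem_Icc, hgt, abs_le] at hx ⊢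
      have h1 : |x| ≤ 7 := abs_le.2 hx
      constructor
      · rintro ⟨-, ⟨a1, a2⟩, ⟨b1, b2⟩, c1, c2⟩
        constructor
        · rw [neg_le]
          apply le_min
          · linarith
          · rcases abs_cases x with ⟨h, _⟩ | ⟨h, _⟩ <;> rw [h] <;> linarith
        · apply le_min
          · linarith
          · rcases abs_cases x with ⟨h, _⟩ | ⟨h, _⟩ <;> rw [h] <;> linarith
      · rintro ⟨a1, a2⟩
        have m1 : min 7 (10 - |x|) ≤ 7 := min_le_left _ _
        have m2 : min 7 (10 - |x|) ≤ 10 - |x| := min_le_right _ _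
        have n1 := le_abs_self x
        have n2 := neg_abs_le x
        refine ⟨⟨by linarith [hx.1], by linarith [hx.2]⟩, ⟨by linarith, by linarith⟩,
          ⟨by linarith, by linarith⟩, by linarith, by linarith⟩
    rw [e, Real.volume_Icc]
    congr 1; ring
  · rw [indicator_of_notMem hx]
    have e : Prod.mk x ⁻¹' OP = ∅ := by
      ext y
      simp only [OP, mem_preimage, mem_ofPred_eq, mem_empty_iff_false, iff_false]
      rintro ⟨h, -⟩
      exact hx (abs_le.1 h)
    rw [e, measure_empty]

lemma hgt_cont : Continuous hgt := by unfold hgt; fun_prop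

lemma hgt_integral : ∫ x in (-7 : ℝ)..7, 2 * hgt x = 164 := by
  have hi : ∀ a b : ℝ, IntervalIntegrable (fun x => 2 * hgt x) volume a b := fun a b =>
    (Continuous.intervalIntegrable (by have := hgt_cont; fun_prop) _ _)
  rw [← intervalIntegral.integral_add_adjacent_intervals (hi (-7) (-3)) (hi (-3) 7),
    ← intervalIntegral.integral_add_adjacent_intervals (hi (-3) 3) (hi 3 7)]
  have e1 : ∫ x in (-7 : ℝ)..(-3), 2 * hgt x = ∫ x in (-7 : ℝ)..(-3), (20 + 2 * x) := by
    apply intervalIntegral.integral_congr
    intro x hx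
    rw [uIcc_of_le (by norm_num)] at hx
    simp only [hgt]
    rw [abs_of_nonpos (by linarith [hx.2]), min_eq_right (by linarith [hx.2])]
    ring
  have e2 : ∫ x in (-3 : ℝ)..3, 2 * hgt x = ∫ x in (-3 : ℝ)..3, (14 : ℝ) := by
    apply intervalIntegral.integral_congr
    intro x hx
    rw [uIcc_of_le (by norm_num)] at hx
    have : |x| ≤ 3 := abs_le.2 hx
    simp only [hgt]
    rw [min_eq_left (by linarith)]
    norm_num
  have e3 : ∫ x in (3 : ℝ)..7, 2 * hgt x = ∫ x in (3 : ℝ)..7, (20 - 2 * x) := by
    apply intervalIntegral.integral_congr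
    intro x hx
    rw [uIcc_of_le (by norm_num)] at hx
    simp only [hgt]
    rw [abs_of_nonneg (by linarith [hx.1]), min_eq_right (by linarith [hx.1])]
    ring
  rw [e1, e2, e3, intervalIntegral.integral_add (Continuous.intervalIntegrable (by fun_prop) _ _)
    (Continuous.intervalIntegrable (by fun_prop) _ _),
    intervalIntegral.integral_sub (Continuous.intervalIntegrable (by fun_prop) _ _)
    (Continuous.intervalIntegrable (by fun_prop) _ _), intervalIntegral.integral_const_mul,
    intervalIntegral.integral_const_mul]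
  simp only [integral_id, intervalIntegral.integral_const, smul_eq_mul]
  norm_num

lemma vol_OP : volume OP = ENNReal.ofReal 164 := by
  rw [Measure.volume_eq_prod, Measure.prod_apply OP_closed.measurableSet]
  simp only [slice]
  rw [lintegral_indicator measurableSet_Icc, ← ofReal_integral_eq_lintegral_ofReal]
  · rw [← hgt_integral, intervalIntegral.integral_of_le (by norm_num), integral_Icc_eq_integral_Ioc]
  · exact (Continuous.integrableOn_Icc (by have := hgt_cont; fun_prop))
  · rw [Filter.EventuallyLE, ae_restrict_iff' measurableSet_Icc]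
    filter_upwards with x hx
    have : |x| ≤ 7 := abs_le.2 hx
    simp only [Pi.zero_apply, hgt]
    have : 0 ≤ min 7 (10 - |x|) := le_min (by norm_num) (by linarith)
    linarith

lemma Oct_pre : Oct = toPair ⁻¹' OP := rfl

lemma vol_Oct : volume.real Oct = 164 := by
  rw [Measure.real, Oct_pre, mp_toPair.measure_preimage OP_closed.measurableSet.nullMeasurableSet,
    vol_OP, ENNReal.toReal_ofReal (by norm_num)]

end Pool.Agent.H10.TU
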